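import Pool.Agent.MP_07e2b8_al.H18.Data

/-!
The complex is exact as soon as `y - v, u, w + x` is a regular sequence.  Its cokernel has finite
projective dimension, and is supported on the line `x = y = u = v = 0`.
-/

set_option autoImplicit false

namespace Pool.Agent.MP_07e2b8_al.H18

open Matrix CategoryTheory

variable {R : Type} [CommRing R]

/-- One step of a projective resolution. -/
theorem pd_step {F M : Type} [AddCommGroup F] [Module R F] [Module.Projective R F]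
    [AddCommGroup M] [Module R M] (f : F →ₗ[R] M) (hf : Function.Surjective f) (n : ℕ)
    (K : Type) [AddCommGroup K] [Module R K] (e : K ≃ₗ[R] LinearMap.ker f)
    (h : HasProjectiveDimensionLT (ModuleCat.of R K) (n + 1)) :
    HasProjectiveDimensionLT (ModuleCat.of R M) (n + 2) := by
  have h1 : HasProjectiveDimensionLT (ModuleCat.of R (LinearMap.ker f)) (n + 1) :=
    hasProjectiveDimensionLT_of_iso e.toModuleIso _
  have h2 : HasProjectiveDimensionLT (ModuleCat.of R F) (n + 1 + 1) := inferInstance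
  exact (LinearMap.shortExact_shortComplexKer hf).hasProjectiveDimensionLT_X₃ _ h1 h2

theorem pd_coker {a b c d : ℕ} (A : Matrix (Fin a) (Fin b) R) (B : Matrix (Fin b) (Fin c) R)
    (C : Matrix (Fin c) (Fin d) R) (hA : LinearMap.ker A.mulVecLin = LinearMap.range B.mulVecLin)
    (hB : LinearMap.ker B.mulVecLin = LinearMap.range C.mulVecLin)
    (hC : Function.Injective C.mulVecLin) :
    projectiveDimension (ModuleCat.of R ((Fin a → R) ⧸ LinearMap.range A.mulVecLin)) ≠ ⊤ := by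
  have h3 : HasProjectiveDimensionLT (ModuleCat.of R (Fin d → R)) (0 + 1) := inferInstance
  have h2 : HasProjectiveDimensionLT (ModuleCat.of R (LinearMap.range B.mulVecLin)) (0 + 2) :=
    pd_step B.mulVecLin.rangeRestrict B.mulVecLin.surjective_rangeRestrict 0 _
      ((LinearEquiv.ofInjective _ hC).trans (LinearEquiv.ofEq _ _ (by
        rw [LinearMap.ker_rangeRestrict, hB]))) h3
  have h1 : HasProjectiveDimensionLT (ModuleCat.of R (LinearMap.range A.mulVecLin)) (1 + 2) :=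
    pd_step A.mulVecLin.rangeRestrict A.mulVecLin.surjective_rangeRestrict 1 _
      (LinearEquiv.ofEq _ _ (by rw [LinearMap.ker_rangeRestrict, hA])) h2
  have h0 : HasProjectiveDimensionLT
      (ModuleCat.of R ((Fin a → R) ⧸ LinearMap.range A.mulVecLin)) (2 + 2) :=
    pd_step (LinearMap.range A.mulVecLin).mkQ (Submodule.mkQ_surjective _) 2 _
      (LinearEquiv.ofEq _ _ (by rw [Submodule.ker_mkQ])) h1
  exact (projectiveDimension_ne_top_iff _).2 ⟨3, h0⟩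

variable (P : Pt R)

/-- What is used of the regular sequence `y - v, u, w + x`. -/
structure Reg : Prop where
  r1 : ∀ r, (P.y - P.v) ^ 3 * r = 0 → r = 0
  r2 : ∀ n a b, P.u ^ n * a = (P.y - P.v) ^ n * b → ∃ c, a = (P.y - P.v) ^ n * c
  r3 : ∀ a b c, (P.w + P.x) ^ 3 * a = (P.y - P.v) ^ 3 * b + P.u ^ 3 * c →
    ∃ d e, a = (P.y - P.v) ^ 3 * d + P.u ^ 3 * e

theorem ev_s1 : ev P s1 = (P.y - P.v) ^ 3 := by simp [ev, s1, evM]; ring
theorem ev_s2 : ev P s2 = P.u ^ 3 := by simp [ev, s2, evM]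
theorem ev_sx : ev P sx = P.x ^ 2 := by simp [ev, sx, evM]
theorem ev_s3 : ev P s3 = (P.w + P.x) ^ 3 := by
  simp [ev, s3, evM]
  linear_combination (-3 * (P.w + P.x)) * P.xw

abbrev D1 : Matrix (Fin 6) (Fin 17) R := toM P 6 17 d1
abbrev D2 : Matrix (Fin 17) (Fin 16) R := toM P 17 16 d2
abbrev D3 : Matrix (Fin 16) (Fin 5) R := toM P 16 5 d3

theorem e12 : D1 P * D2 P = 0 := by simpa using chk_zero P _ _ _ _ _ _ _ _ k12
theorem e23 : D2 P * D3 P = 0 := by simpa using chk_zero P _ _ _ _ _ _ _ _ k23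

theorem hom1 {a n : ℕ} {A B : Mat} {s : Pol}
    (h : chk a a A B n [] [] 0 [] [] 0 (fun _ => s) = true) (z : Fin a → R) :
    toM P a n A *ᵥ (toM P n a B *ᵥ z) = ev P s • z := by
  have := congrArg (· *ᵥ z) (chk_diag P _ _ _ _ _ _ _ _ _ _ _ h)
  simpa [Matrix.smul_mulVec] using this

theorem hom2 {a n m : ℕ} {A B C D : Mat} {s : Pol}
    (h : chk a a A B n C D m [] [] 0 (fun _ => s) = true) (z : Fin a → R)
    (hz : toM P m a D *ᵥ z = 0) : toM P a n A *ᵥ (toM P n a B *ᵥ z) = ev P s • z := by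
  have := congrArg (· *ᵥ z) (chk_diag P _ _ _ _ _ _ _ _ _ _ _ h)
  simp only [Matrix.add_mulVec, ← Matrix.mulVec_mulVec, hz, Matrix.mulVec_zero, add_zero,
    Matrix.smul_mulVec, Matrix.one_mulVec] at this
  simpa using this

variable {P} (H : Reg P)
include H

theorem v1 {n : ℕ} (z : Fin n → R) (h : (P.y - P.v) ^ 3 • z = 0) : z = 0 :=
  funext fun i => H.r1 _ (congrFun h i)

theorem v2 {n : ℕ} (a b : Fin n → R) (h : P.u ^ 3 • a = (P.y - P.v) ^ 3 • b) :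
    ∃ c, a = (P.y - P.v) ^ 3 • c := by
  choose c hc using fun i => H.r2 3 (a i) (b i) (congrFun h i)
  exact ⟨c, funext hc⟩

theorem v3 {n : ℕ} (a b c : Fin n → R)
    (h : (P.w + P.x) ^ 3 • a = (P.y - P.v) ^ 3 • b + P.u ^ 3 • c) :
    ∃ d e, a = (P.y - P.v) ^ 3 • d + P.u ^ 3 • e := by
  choose d e hc using fun i => H.r3 (a i) (b i) (c i) (congrFun h i)
  exact ⟨d, e, funext hc⟩

theorem inj3 (z : Fin 5 → R) (h : D3 P *ᵥ z = 0) : z = 0 := by
  have := hom1 P ka3 z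
  rw [h, Matrix.mulVec_zero, ev_s1] at this
  exact v1 H z this.symm

theorem ex2 (z : Fin 16 → R) (h : D2 P *ᵥ z = 0) : ∃ a, D3 P *ᵥ a = z := by
  obtain ⟨a, ha⟩ : ∃ a, D3 P *ᵥ a = (P.y - P.v) ^ 3 • z := ⟨_, ev_s1 P ▸ hom2 P ka2 z h⟩
  obtain ⟨b, hb⟩ : ∃ b, D3 P *ᵥ b = P.u ^ 3 • z := ⟨_, ev_s2 P ▸ hom2 P kb2 z h⟩
  have h1 := inj3 H (P.u ^ 3 • a - (P.y - P.v) ^ 3 • b) (by
    rw [Matrix.mulVec_sub, Matrix.mulVec_smul, Matrix.mulVec_smul, ha, hb, smul_comm, sub_self])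
  obtain ⟨c, rfl⟩ := v2 H a b (sub_eq_zero.1 h1)
  refine ⟨c, sub_eq_zero.1 (v1 H _ ?_)⟩
  rw [smul_sub, ← Matrix.mulVec_smul, ha, sub_self]

theorem kill3 (z : Fin 17 → R) (h : D1 P *ᵥ z = 0) :
    ∃ a, D2 P *ᵥ a = (P.w + P.x) ^ 3 • z := by
  have h1 := congrArg (· *ᵥ z) (chk_diag P _ _ _ _ _ _ _ _ _ _ _ kg1)
  simp only [Matrix.add_mulVec, ← Matrix.mulVec_mulVec, h, Matrix.mulVec_zero, add_zero,
    Matrix.smul_mulVec, Matrix.one_mulVec, ev_s3] at h1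
  have h2 := congrArg (· *ᵥ z) (chk_zero P _ _ _ _ _ _ _ _ kta)
  simp only [Matrix.add_mulVec, ← Matrix.mulVec_mulVec, h, Matrix.mulVec_zero, add_zero,
    Matrix.zero_mulVec] at h2
  have h3 := chk_zero P _ _ _ _ _ _ _ _ kbk
  generalize toM P 2 17 al *ᵥ z = k at h1 h2
  have h4 : P.u ^ 1 * k 1 = (P.y - P.v) ^ 1 * (-k 0) := by
    have := congrFun h2 0
    simp [Matrix.mulVec, dotProduct, toM, ent, tt, ev, evM] at this
    linear_combination this
  obtain ⟨c, hc⟩ := H.r2 1 _ _ h4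
  have h5 : k 0 = -(P.u * c) := by
    refine sub_eq_zero.1 (H.r1 _ ?_)
    rw [hc] at h4
    linear_combination (P.y - P.v) ^ 2 * h4
  have h6 : k = toM P 2 1 ka *ᵥ (fun _ => -c) := by
    funext i
    fin_cases i
    · simp [Matrix.mulVec, dotProduct, toM, ent, ka, ev, evM, h5]
    · simp [Matrix.mulVec, dotProduct, toM, ent, ka, ev, evM, hc]; ring
  have h7 := congrArg (· *ᵥ (fun _ => -c)) h3
  simp only [Matrix.add_mulVec, ← Matrix.mulVec_mulVec, ← h6, Matrix.zero_mulVec] at h7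
  refine ⟨toM P 16 17 g1 *ᵥ z - toM P 16 1 ng *ᵥ (fun _ => -c), ?_⟩
  rw [Matrix.mulVec_sub, ← h1]
  exact sub_eq_iff_eq_add.2 (by rw [add_assoc, h7, add_zero])

theorem ex1 (z : Fin 17 → R) (h : D1 P *ᵥ z = 0) : ∃ a, D2 P *ᵥ a = z := by
  obtain ⟨a1, h1⟩ : ∃ a, D2 P *ᵥ a = (P.y - P.v) ^ 3 • z := ⟨_, ev_s1 P ▸ hom2 P ka1 z h⟩
  obtain ⟨a2, h2⟩ : ∃ a, D2 P *ᵥ a = P.u ^ 3 • z := ⟨_, ev_s2 P ▸ hom2 P kb1 z h⟩
  obtain ⟨a3, h3⟩ := kill3 H z h
  have key : ∀ (s t : R) (a b : Fin 16 → R), D2 P *ᵥ a = s • z → D2 P *ᵥ b = t • z →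
      ∃ c, D3 P *ᵥ c = t • a - s • b := fun s t a b ha hb => ex2 H _ (by
    rw [Matrix.mulVec_sub, Matrix.mulVec_smul, Matrix.mulVec_smul, ha, hb, smul_comm, sub_self])
  obtain ⟨b12, k12⟩ := key _ _ _ _ h1 h2
  obtain ⟨b13, k13⟩ := key _ _ _ _ h1 h3
  obtain ⟨b23, k23⟩ := key _ _ _ _ h2 h3
  have h4 := inj3 H ((P.w + P.x) ^ 3 • b12 - ((P.y - P.v) ^ 3 • (-b23) + P.u ^ 3 • b13)) (by
    simp only [Matrix.mulVec_sub, Matrix.mulVec_add, Matrix.mulVec_smul, Matrix.mulVec_neg,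
      k12, k13, k23]
    module)
  obtain ⟨c1, c2, rfl⟩ := v3 H _ _ _ (sub_eq_zero.1 h4)
  simp only [Matrix.mulVec_add, Matrix.mulVec_smul] at k12
  obtain ⟨a, ha⟩ := v2 H (a1 - D3 P *ᵥ c2) (a2 + D3 P *ᵥ c1) (by
    rw [smul_sub, smul_add]
    linear_combination (exp := 1) -k12)
  refine ⟨a, sub_eq_zero.1 (v1 H _ ?_)⟩
  rw [smul_sub, ← Matrix.mulVec_smul, ← ha, Matrix.mulVec_sub, h1, Matrix.mulVec_mulVec, e23,
    Matrix.zero_mulVec, sub_zero, sub_self]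

omit H

/-- The module. -/
abbrev NN (P : Pt R) : Type := (Fin 6 → R) ⧸ LinearMap.range (D1 P).mulVecLin

theorem pd_NN (H : Reg P) : projectiveDimension (ModuleCat.of R (NN P)) ≠ ⊤ := by
  refine pd_coker (D1 P) (D2 P) (D3 P) ?_ ?_ ?_
  · ext z
    refine ⟨fun h => ex1 H z h, ?_⟩
    rintro ⟨a, rfl⟩
    simp [e12]
  · ext z
    refine ⟨fun h => ex2 H z h, ?_⟩
    rintro ⟨a, rfl⟩
    simp [e23]
  · exact (injective_iff_map_eq_zero _).2 (inj3 H)

theorem ann_of {B : Mat} {s : Pol} (h : chk 6 6 d1 B 17 [] [] 0 [] [] 0 (fun _ => s) = true) :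
    ev P s ∈ Module.annihilator R (NN P) := by
  rw [Module.mem_annihilator]
  intro m
  obtain ⟨z, rfl⟩ := Submodule.Quotient.mk_surjective _ m
  rw [← Submodule.Quotient.mk_smul, Submodule.Quotient.mk_eq_zero]
  exact ⟨_, hom1 P h z⟩

theorem ann1 : (P.y - P.v) ^ 3 ∈ Module.annihilator R (NN P) := ev_s1 P ▸ ann_of ka0
theorem ann2 : P.u ^ 3 ∈ Module.annihilator R (NN P) := ev_s2 P ▸ ann_of kb0
theorem annx : P.x ^ 2 ∈ Module.annihilator R (NN P) := ev_sx P ▸ ann_of kc0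

theorem ann_le (q : Ideal R) (hx : P.x ∈ q) (hy : P.y ∈ q) (hu : P.u ∈ q) (hv : P.v ∈ q) :
    Module.annihilator R (NN P) ≤ q := by
  intro r hr
  have h := Module.mem_annihilator.1 hr (Submodule.Quotient.mk (Pi.single 5 1))
  rw [← Submodule.Quotient.mk_smul, Submodule.Quotient.mk_eq_zero] at h
  obtain ⟨z, hz⟩ := h
  have h2 := congrArg (· *ᵥ z) (chk_zero P _ _ _ _ _ _ _ _ kq)
  simp only [Matrix.add_mulVec, ← Matrix.mulVec_mulVec, Matrix.zero_mulVec] at h2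
  rw [Matrix.mulVecLin_apply] at hz
  rw [hz] at h2
  generalize toM P 4 17 nc *ᵥ z = k at h2
  have h3 := congrFun h2 0
  simp [Matrix.mulVec, dotProduct, toM, ent, e5, qq, ev, evM, Fin.sum_univ_succ] at h3
  have : r = -(P.x * k 0 + (P.y * k 1 + (P.u * k 2 + P.v * k 3))) := by
    linear_combination h3
  rw [this]
  exact neg_mem (add_mem (q.mul_mem_right _ hx) (add_mem (q.mul_mem_right _ hy)
    (add_mem (q.mul_mem_right _ hu) (q.mul_mem_right _ hv))))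

end Pool.Agent.MP_07e2b8_al.H18
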