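import Mathlib

/-!
A checker for matrix identities over a commutative ring with elements `x, y, u, v, w` such that
`x w = 0`, `v w = 0`, `x u = y v`.
-/

set_option autoImplicit false

namespace Pool.Agent.MP_07e2b8_al.H18

/-- exponents of `x, y, u, v, w` -/
abbrev Mon : Type := ℕ × ℕ × ℕ × ℕ × ℕ

abbrev Pol : Type := List (ℤ × Mon)

abbrev Mat : Type := List (List Pol)

/-- Five elements with the three relations. -/
structure Pt (R : Type) [CommRing R] where
  x : R
  y : R
  u : R
  v : R
  w : R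
  xw : x * w = 0
  vw : v * w = 0
  xu : x * u = y * v

def addM (a b : Mon) : Mon :=
  (a.1 + b.1, a.2.1 + b.2.1, a.2.2.1 + b.2.2.1, a.2.2.2.1 + b.2.2.2.1, a.2.2.2.2 + b.2.2.2.2)

def mulP (p q : Pol) : Pol := p.flatMap fun s => q.map fun t => (s.1 * t.1, addM s.2 t.2)

def dead (m : Mon) : Bool := decide (0 < m.2.2.2.2) && (decide (0 < m.1) || decide (0 < m.2.2.2.1))

def red (m : Mon) : Mon :=
  (m.1 - min m.1 m.2.2.1, m.2.1 + min m.1 m.2.2.1, m.2.2.1 - min m.1 m.2.2.1,
    m.2.2.2.1 + min m.1 m.2.2.1, m.2.2.2.2)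

def ins (c : ℤ) (m : Mon) : Pol → Pol
  | [] => [(c, m)]
  | t :: p => if t.2 = m then (t.1 + c, m) :: p else t :: ins c m p

def nrm : Pol → Pol
  | [] => []
  | t :: p => if dead t.2 then nrm p else ins t.1 (red t.2) (nrm p)

def isZ (p : Pol) : Bool := (nrm p).all fun t => decide (t.1 = 0)

def ent (A : Mat) (i j : ℕ) : Pol := (A.getD i []).getD j []

def dot (A B : Mat) (n i k : ℕ) : Pol := (List.range n).flatMap fun j => mulP (ent A i j) (ent B j k)

def negP (p : Pol) : Pol := p.map fun t => (-t.1, t.2)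

/-- `A B + C D + E F = s` (as `a × c` matrices, `s` on the diagonal). -/
def chk (a c : ℕ) (A B : Mat) (n : ℕ) (C D : Mat) (m : ℕ) (E F : Mat) (l : ℕ) (s : ℕ → Pol) :
    Bool :=
  (List.range a).all fun i => (List.range c).all fun k =>
    isZ (dot A B n i k ++ (dot C D m i k ++ (dot E F l i k ++ if i = k then negP (s i) else [])))

section

variable {R : Type} [CommRing R] (P : Pt R)

def evM (m : Mon) : R :=
  P.x ^ m.1 * P.y ^ m.2.1 * P.u ^ m.2.2.1 * P.v ^ m.2.2.2.1 * P.w ^ m.2.2.2.2

def ev (p : Pol) : R := (p.map fun t => (t.1 : R) * evM P t.2).sum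

theorem ev_nil : ev P [] = 0 := rfl

theorem ev_cons (t : ℤ × Mon) (p : Pol) : ev P (t :: p) = (t.1 : R) * evM P t.2 + ev P p := by
  simp [ev]

theorem ev_append (p q : Pol) : ev P (p ++ q) = ev P p + ev P q := by simp [ev]

theorem evM_add (a b : Mon) : evM P (addM a b) = evM P a * evM P b := by
  simp only [evM, addM, pow_add]; ring

theorem ev_mul (p q : Pol) : ev P (mulP p q) = ev P p * ev P q := by
  induction p with
  | nil => simp [mulP, ev]
  | cons s p ih =>
    have h : ∀ q : Pol, ev P (q.map fun t => (s.1 * t.1, addM s.2 t.2)) =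
        (s.1 : R) * evM P s.2 * ev P q := by
      intro q
      induction q with
      | nil => simp [ev]
      | cons t q ihq => rw [List.map_cons, ev_cons, ev_cons, ihq, evM_add]; push_cast; ring
    rw [mulP, List.flatMap_cons, ev_append, h, ev_cons, add_mul]
    exact congrArg _ ih

theorem ev_neg (p : Pol) : ev P (negP p) = -ev P p := by
  induction p with
  | nil => simp [negP, ev]
  | cons s p ih =>
    rw [negP, List.map_cons, ev_cons, ev_cons, neg_add]
    push_cast
    rw [neg_mul]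
    exact congrArg _ ih

theorem evM_dead (m : Mon) (h : dead m = true) : evM P m = 0 := by
  obtain ⟨a, b, c, d, e⟩ := m
  simp only [dead, Bool.and_eq_true, Bool.or_eq_true, decide_eq_true_eq] at h
  obtain ⟨e, rfl⟩ : ∃ e', e = e' + 1 := ⟨e - 1, by omega⟩
  rcases h.2 with h | h
  · obtain ⟨a, rfl⟩ : ∃ a', a = a' + 1 := ⟨a - 1, by omega⟩
    simp only [evM]
    linear_combination (P.x ^ a * P.y ^ b * P.u ^ c * P.v ^ d * P.w ^ e) * P.xw
  · obtain ⟨d, rfl⟩ : ∃ d', d = d' + 1 := ⟨d - 1, by omega⟩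
    simp only [evM]
    linear_combination (P.x ^ a * P.y ^ b * P.u ^ c * P.v ^ d * P.w ^ e) * P.vw

theorem evM_red (m : Mon) : evM P (red m) = evM P m := by
  obtain ⟨a, b, c, d, e⟩ := m
  simp only [evM, red]
  obtain ⟨k, hk⟩ : ∃ k, k = min a c := ⟨_, rfl⟩
  rw [← hk]
  obtain ⟨a, rfl⟩ : ∃ a', a = a' + k := ⟨a - k, by omega⟩
  obtain ⟨c, rfl⟩ : ∃ c', c = c' + k := ⟨c - k, by omega⟩
  have h : P.x ^ k * P.u ^ k = P.y ^ k * P.v ^ k := by rw [← mul_pow, ← mul_pow, P.xu]
  simp only [Nat.add_sub_cancel, pow_add]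
  linear_combination (-(P.x ^ a * P.y ^ b * P.u ^ c * P.v ^ d * P.w ^ e)) * h

theorem ev_ins (c : ℤ) (m : Mon) (p : Pol) : ev P (ins c m p) = (c : R) * evM P m + ev P p := by
  induction p with
  | nil => simp [ins, ev]
  | cons t p ih =>
    rw [ins]
    split_ifs with h
    · rw [ev_cons, ev_cons, h]; push_cast; ring
    · rw [ev_cons, ev_cons, ih]; ring

theorem ev_nrm (p : Pol) : ev P (nrm p) = ev P p := by
  induction p with
  | nil => rfl
  | cons t p ih =>
    rw [nrm]
    split_ifs with h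
    · rw [ev_cons, ih, evM_dead P _ h]; simp
    · rw [ev_ins, ev_cons, ih, evM_red]

theorem ev_isZ (p : Pol) (h : isZ p = true) : ev P p = 0 := by
  rw [← ev_nrm]
  unfold isZ at h
  generalize nrm p = q at h
  induction q with
  | nil => rfl
  | cons t q ih =>
    simp only [List.all_cons, Bool.and_eq_true, decide_eq_true_eq] at h
    rw [ev_cons, ih h.2, h.1]; simp

/-- The matrix over `R`. -/
def toM (a b : ℕ) (A : Mat) : Matrix (Fin a) (Fin b) R := fun i j => ev P (ent A i j)

theorem ev_dot (a c : ℕ) (A B : Mat) (n : ℕ) (i : Fin a) (k : Fin c) :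
    ev P (dot A B n i k) = (toM P a n A * toM P n c B) i k := by
  rw [Matrix.mul_apply]
  simp only [toM]
  rw [Fin.sum_univ_eq_sum_range (fun j => ev P (ent A i j) * ev P (ent B j k)) n, dot]
  induction n with
  | zero => rfl
  | succ n ih =>
    rw [List.range_succ, List.flatMap_append, ev_append, ih, Finset.sum_range_succ]
    simp [ev_mul]

theorem chk_sound (a c : ℕ) (A B : Mat) (n : ℕ) (C D : Mat) (m : ℕ) (E F : Mat) (l : ℕ)
    (s : ℕ → Pol) (h : chk a c A B n C D m E F l s = true) (i : Fin a) (k : Fin c) :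
    (toM P a n A * toM P n c B + toM P a m C * toM P m c D + toM P a l E * toM P l c F) i k =
      if i.val = k.val then ev P (s i) else 0 := by
  simp only [chk, List.all_eq_true, List.mem_range] at h
  have := ev_isZ P _ (h i i.2 k k.2)
  rw [ev_append, ev_append, ev_append, ev_dot, ev_dot, ev_dot] at this
  simp only [Matrix.add_apply]
  split_ifs at this ⊢
  · rw [ev_neg] at this; linear_combination this
  · rw [ev_nil] at this; linear_combination this

theorem chk_zero (a c : ℕ) (A B : Mat) (n : ℕ) (C D : Mat) (m : ℕ)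
    (h : chk a c A B n C D m [] [] 0 (fun _ => []) = true) :
    toM P a n A * toM P n c B + toM P a m C * toM P m c D = 0 := by
  ext i k
  have := chk_sound P _ _ _ _ _ _ _ _ _ _ _ _ h i k
  simpa [ev_nil] using this

theorem chk_diag (a : ℕ) (A B : Mat) (n : ℕ) (C D : Mat) (m : ℕ) (E F : Mat) (l : ℕ) (s : Pol)
    (h : chk a a A B n C D m E F l (fun _ => s) = true) :
    toM P a n A * toM P n a B + toM P a m C * toM P m a D + toM P a l E * toM P l a F =
      ev P s • (1 : Matrix (Fin a) (Fin a) R) := by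
  ext i k
  rw [chk_sound P _ _ _ _ _ _ _ _ _ _ _ _ h i k, Matrix.smul_apply, Matrix.one_apply]
  simp [Fin.ext_iff]

end

end Pool.Agent.MP_07e2b8_al.H18
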