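import Pool.Agent.MP_07e2b8_al.H18.Chk

/-!
The complex `0 → R^5 → R^16 → R^17 → R^6` and the homotopies that certify its exactness.
-/

set_option autoImplicit false

namespace Pool.Agent.MP_07e2b8_al.H18

def d1 : Mat := [
  [[(1, 0, 0, 1, 0, 0)], [], [], [], [], [(1, 1, 0, 0, 0, 0)], [(-1, 0, 0, 0, 0, 2)], [(-1, 0, 0, 2, 0, 0)], [(-1, 0, 1, 0, 0, 0)], [], [], [(-1, 0, 0, 0, 0, 2), (1, 0, 0, 0, 1, 0), (-1, 0, 1, 0, 0, 0)]],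
  [[(-1, 0, 1, 0, 0, 0)], [(1, 0, 0, 1, 0, 0)], [], [], [], [(-1, 0, 0, 1, 0, 1)], [(1, 1, 0, 0, 0, 0)], [(-1, 0, 0, 0, 0, 2)], [], [], [], [], [(-1, 0, 0, 0, 0, 2), (1, 0, 0, 0, 1, 0)]],
  [[], [(-1, 0, 1, 0, 0, 0)], [(1, 0, 0, 1, 0, 0)], [], [], [], [], [(1, 1, 0, 0, 0, 0)], [(-1, 0, 0, 0, 0, 2)], [(-1, 0, 0, 1, 0, 0)], [], [], [(-1, 0, 0, 1, 0, 0)], [(-1, 0, 0, 0, 0, 2), (1, 0, 0, 0, 1, 0)]],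
  [[], [], [(-1, 0, 1, 0, 0, 0)], [(1, 0, 0, 1, 0, 0)], [], [], [(-1, 0, 0, 2, 0, 0)], [], [(1, 1, 0, 0, 0, 0)], [(-1, 0, 0, 0, 0, 2)], [], [], [], [], [(-1, 0, 0, 0, 0, 2), (1, 0, 0, 0, 1, 0)]],
  [[], [], [], [(-1, 0, 1, 0, 0, 0)], [(1, 0, 0, 1, 0, 0)], [], [], [], [], [(1, 1, 0, 0, 0, 0)], [(-1, 0, 0, 0, 0, 2)], [], [], [], [], [(-1, 0, 0, 0, 0, 2), (1, 0, 0, 0, 1, 0)], [(-1, 0, 0, 1, 0, 1)]],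
  [[], [], [], [], [(-1, 0, 1, 0, 0, 0)], [], [], [], [], [], [(-1, 0, 0, 1, 0, 0), (1, 1, 0, 0, 0, 0)], [], [], [(-1, 0, 0, 1, 0, 0)], [], [], [(1, 0, 0, 0, 1, 0)]]]

def d2 : Mat := [
  [[], [], [], [], [], [(1, 0, 0, 1, 0, 1)], [], [(-1, 0, 0, 1, 1, 0), (1, 1, 0, 0, 1, 0)], [], [], [(-1, 0, 0, 2, 0, 0)], [], [(1, 0, 0, 0, 0, 2), (-1, 0, 0, 0, 1, 0)], [], [(-1, 0, 0, 0, 1, 0)], [(1, 1, 0, 0, 0, 0)]],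
  [[], [(1, 0, 0, 1, 0, 1)], [], [], [], [], [(1, 0, 0, 0, 0, 2), (-1, 0, 0, 0, 1, 0)], [(-1, 0, 1, 0, 1, 0)], [], [(1, 0, 0, 0, 1, 0)], [(-1, 0, 0, 0, 1, 0), (-1, 0, 1, 1, 0, 0)], [(1, 1, 0, 0, 0, 0)], [], [], [], [(1, 0, 0, 1, 1, 0)]],
  [[], [], [], [(1, 0, 0, 0, 0, 2), (-1, 0, 0, 0, 1, 0)], [], [], [], [], [], [], [], [(-1, 0, 0, 1, 1, 0)], [(-1, 0, 0, 0, 1, 0)], [(-1, 1, 0, 0, 0, 0)], [(-1, 0, 0, 0, 1, 0)], [(-1, 0, 0, 2, 0, 0), (1, 1, 0, 0, 0, 0)]],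
  [[(1, 0, 0, 0, 0, 2), (-1, 0, 0, 0, 1, 0)], [], [], [], [], [], [(-1, 0, 0, 0, 1, 0)], [], [(1, 0, 0, 1, 0, 1)], [(1, 0, 0, 0, 1, 0), (1, 0, 0, 1, 1, 0)], [(-1, 0, 0, 0, 1, 0), (1, 1, 1, 0, 0, 0)], [(1, 1, 0, 0, 0, 0)], [(1, 1, 0, 0, 0, 0)], [], [(-1, 0, 0, 2, 0, 0)]],
  [[], [], [(1, 0, 0, 1, 0, 1)], [(-1, 0, 0, 0, 1, 0)], [(-1, 0, 0, 0, 1, 0)], [], [(1, 1, 0, 0, 0, 0)], [(-1, 0, 0, 0, 1, 0)], [(-1, 0, 0, 0, 1, 0)], [], [], [(-1, 0, 0, 1, 1, 0)], [(-1, 0, 0, 0, 1, 0)], [(-1, 1, 0, 0, 0, 0)], [(-1, 0, 0, 0, 1, 0), (-1, 0, 1, 1, 0, 0), (1, 1, 1, 0, 0, 0)], [(1, 1, 0, 0, 0, 0)]],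
  [[], [(1, 0, 0, 1, 0, 0)], [], [], [], [(1, 0, 0, 0, 1, 0), (-1, 0, 1, 0, 0, 0)], [], [(-1, 0, 0, 1, 1, 0)], [], [(1, 0, 0, 0, 0, 1)], [], [], [], [], [], [(1, 0, 0, 1, 0, 1)]],
  [[], [], [], [], [], [], [], [], [(1, 0, 0, 0, 0, 1)], [(1, 0, 0, 0, 1, 0)], [], [], [], [], [(-1, 0, 0, 1, 0, 0)], [(1, 0, 1, 0, 0, 0)]],
  [[], [], [], [], [], [(1, 0, 0, 0, 0, 1)], [], [(-1, 0, 0, 0, 1, 0)], [], [], [(-1, 0, 0, 1, 0, 0)], [(1, 0, 1, 0, 0, 0)]],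
  [[], [(1, 0, 0, 0, 1, 0)], [], [], [], [], [], [], [(1, 0, 0, 0, 0, 1)], [], [], [(-1, 0, 0, 2, 0, 0)], [(-1, 0, 0, 1, 0, 0)], [(-1, 0, 0, 0, 0, 2), (1, 0, 0, 0, 1, 0), (-1, 0, 1, 0, 0, 0)], [(-1, 0, 0, 1, 0, 0)], [(1, 0, 1, 0, 0, 0)]],
  [[], [(-1, 0, 1, 0, 0, 1)], [], [], [(-1, 0, 0, 0, 0, 2), (1, 0, 0, 0, 1, 0)], [(1, 0, 0, 0, 0, 1)], [(-1, 0, 0, 1, 0, 0)], [], [], [(1, 0, 0, 1, 0, 0)], [(-1, 0, 0, 1, 0, 0), (1, 0, 2, 0, 0, 0)], [(1, 0, 1, 0, 0, 0)], [(1, 0, 1, 0, 0, 0)], [], [], [(-1, 0, 1, 0, 1, 0)]],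
  [[], [], [(1, 0, 0, 0, 1, 0), (-1, 0, 1, 0, 0, 1)], [(-1, 0, 0, 1, 0, 0)], [(-1, 0, 0, 1, 0, 0)], [], [(1, 0, 1, 0, 0, 0)], [], [(1, 0, 0, 0, 0, 1)], [], [], [(-1, 0, 0, 2, 0, 0)], [(-1, 0, 0, 1, 0, 0)], [(-1, 0, 0, 0, 0, 2), (-1, 0, 1, 0, 0, 0)], [(-1, 0, 0, 1, 0, 0), (1, 0, 2, 0, 0, 0)], [(1, 0, 1, 0, 0, 0)]],
  [[], [], [], [], [], [(-1, 1, 0, 0, 0, 0)], [], [], [(-1, 0, 0, 0, 0, 1)], [], [], [], [(1, 0, 0, 1, 0, 0)], [(1, 0, 1, 0, 0, 0)], [(1, 0, 0, 1, 0, 0)], [(-1, 0, 1, 0, 0, 0)]],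
  [[], [], [], [], [], [(-1, 0, 0, 0, 0, 1)], [(1, 0, 0, 1, 0, 0)], [(1, 1, 1, 0, 0, 0)], [], [(-1, 0, 0, 1, 0, 0), (-1, 1, 0, 0, 0, 0)], [(1, 0, 0, 1, 0, 0)], [(-1, 0, 1, 0, 0, 0)], [(-1, 0, 1, 0, 0, 0)], [], [], [(-1, 0, 0, 2, 0, 0)]],
  [[], [], [], [(1, 0, 0, 1, 0, 0)], [(1, 0, 0, 1, 0, 0)], [], [(-1, 0, 1, 0, 0, 0)], [(1, 1, 0, 0, 0, 0)], [(-1, 0, 0, 0, 0, 1)], [], [], [(1, 0, 0, 2, 0, 0)], [(1, 0, 0, 1, 0, 0)], [(1, 0, 0, 0, 0, 2), (1, 0, 1, 0, 0, 0)], [(1, 0, 0, 1, 0, 0)], [(-1, 0, 1, 0, 0, 0)]],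
  [[(1, 0, 0, 1, 0, 0)], [(1, 0, 1, 0, 0, 1), (-1, 1, 0, 0, 0, 0)], [], [(-1, 0, 1, 0, 0, 0)], [(1, 0, 0, 0, 0, 2)], [(-1, 0, 0, 0, 0, 1)], [(1, 0, 0, 1, 0, 0)], [], [], [(-1, 0, 0, 1, 0, 0)], [(1, 0, 0, 1, 0, 0), (-1, 0, 2, 0, 0, 0)], [(-1, 0, 1, 0, 0, 0)], [(-1, 0, 1, 0, 0, 0)], [(-1, 1, 0, 0, 0, 0)]],
  [[(-1, 0, 1, 0, 0, 0)], [], [(1, 0, 1, 0, 0, 1)], [(1, 0, 0, 1, 0, 0)], [(1, 0, 0, 1, 0, 0), (-1, 1, 0, 0, 0, 0)], [], [(-1, 0, 1, 0, 0, 0)], [(1, 0, 0, 1, 0, 0)], [(-1, 0, 0, 0, 0, 1), (1, 0, 0, 1, 0, 0)], [(1, 0, 1, 1, 0, 0)], [], [(1, 0, 0, 2, 0, 0)], [(1, 0, 0, 1, 0, 0)], [(1, 0, 0, 0, 0, 2), (1, 0, 1, 0, 0, 0)], [(1, 0, 0, 1, 0, 0), (-1, 0, 2, 0, 0, 0)], [(-1, 0, 1, 0, 0, 0), (1, 1, 1, 0,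 0, 0)]],
  [[], [], [(1, 0, 0, 1, 0, 0), (-1, 1, 0, 0, 0, 0)], [], [], [], [], [(-1, 0, 0, 0, 0, 1)], [(-1, 0, 0, 0, 0, 1), (-1, 0, 1, 0, 0, 0)], [(-1, 0, 1, 0, 0, 1)]]]

def d3 : Mat := [
  [[], [], [(-1, 1, 0, 0, 0, 0)], [(1, 0, 0, 1, 1, 0), (1, 0, 1, 1, 0, 0)]],
  [[(1, 0, 0, 0, 1, 0), (-1, 0, 1, 0, 0, 0)], [(1, 0, 0, 1, 1, 0)], [(-1, 0, 0, 0, 0, 1)], [(-1, 0, 0, 0, 0, 3), (1, 0, 2, 0, 1, 0)], [(1, 0, 3, 0, 1, 0)]],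
  [[], [(-1, 0, 1, 0, 0, 0)], [(-1, 0, 2, 0, 0, 0)]],
  [[(1, 1, 0, 0, 0, 0)], [], [], [(1, 0, 0, 2, 0, 0)], [(1, 0, 0, 1, 1, 0)]],
  [[], [], [(1, 0, 1, 0, 0, 0)], [(-1, 0, 0, 2, 0, 0), (1, 0, 1, 0, 0, 2), (-1, 0, 1, 0, 1, 0)]],
  [[(-1, 0, 0, 1, 0, 0)], [], [], [], [(-1, 0, 1, 0, 0, 1)]],
  [[], [(1, 0, 0, 0, 1, 0)], [(1, 0, 0, 1, 0, 0)], [(1, 0, 0, 1, 0, 2), (-1, 0, 0, 1, 1, 0), (1, 1, 1, 0, 0, 0)], [(1, 1, 2, 0, 0, 0)]],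
  [[], [(1, 0, 0, 1, 0, 0)], [], [(1, 0, 1, 0, 0, 1), (1, 0, 2, 0, 0, 0)], [(1, 0, 3, 0, 0, 0)]],
  [[], [(-1, 0, 0, 1, 0, 0), (1, 1, 0, 0, 0, 0)], [(-1, 0, 1, 1, 0, 0), (1, 1, 1, 0, 0, 0)], [(-1, 0, 1, 0, 0, 1)]],
  [[], [], [(1, 0, 0, 1, 0, 0)], [], [(-1, 0, 2, 0, 0, 0)]],
  [[(-1, 0, 0, 0, 0, 1)], [(-1, 0, 0, 0, 1, 0)], [], [(-1, 1, 1, 0, 0, 0)], [(-1, 1, 0, 0, 0, 0), (-1, 1, 2, 0, 0, 0)]],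
  [[], [], [], [], [(1, 0, 0, 0, 0, 2), (-1, 0, 0, 0, 1, 0)]],
  [[], [(1, 0, 1, 0, 1, 0)], [(-1, 0, 0, 0, 1, 0)], [(1, 1, 2, 0, 0, 0)], [(1, 0, 1, 1, 0, 0), (1, 1, 1, 0, 0, 0), (1, 1, 3, 0, 0, 0)]],
  [[(-1, 0, 0, 0, 1, 0)], [(-1, 0, 0, 1, 1, 0)], [], [(-1, 0, 2, 0, 1, 0)], [(-1, 0, 0, 2, 0, 0), (-1, 0, 3, 0, 1, 0)]],
  [[], [(-1, 0, 0, 0, 0, 1)], [(1, 0, 0, 0, 1, 0), (-1, 0, 1, 0, 0, 1)], [(-1, 1, 0, 0, 0, 0)], [(-1, 1, 1, 0, 0, 0)]],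
  [[], [], [], [(1, 0, 0, 0, 0, 2), (-1, 0, 0, 0, 1, 0)]]]

def a0 : Mat := [
  [[(-1, 0, 0, 0, 1, 0)], [(-3, 0, 0, 0, 2, 0), (3, 0, 1, 0, 1, 0), (-1, 0, 2, 0, 0, 0)], [(3, 0, 0, 1, 1, 0), (-1, 0, 1, 1, 0, 0)], [(-1, 0, 0, 2, 0, 0), (3, 1, 0, 0, 0, 0)], [(-1, 0, 0, 1, 1, 0)], [(-1, 1, 0, 0, 0, 0)]],
  [[], [(-1, 0, 0, 0, 1, 0)], [(-3, 0, 0, 0, 2, 0), (3, 0, 1, 0, 1, 0), (-1, 0, 2, 0, 0, 0), (-1, 1, 0, 0, 0, 0)], [(-1, 0, 0, 0, 1, 0), (3, 0, 0, 1, 1, 0), (-1, 0, 1, 1, 0, 0)], [], [(3, 0, 0, 0, 1, 0)]],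
  [[(-1, 0, 0, 0, 1, 0), (-1, 1, 1, 0, 0, 0)], [(-1, 0, 1, 0, 1, 0)], [], [(-3, 0, 0, 0, 2, 0), (-3, 0, 0, 2, 0, 0), (3, 0, 1, 0, 1, 0), (-1, 0, 2, 0, 0, 0), (3, 1, 0, 0, 0, 0)], [(3, 0, 0, 1, 1, 0), (-1, 0, 1, 1, 0, 0)], [(-1, 1, 0, 0, 0, 0)]],
  [[(-1, 0, 0, 2, 0, 0)], [(-1, 0, 0, 0, 1, 0), (-1, 0, 0, 1, 1, 0)], [(-3, 0, 0, 0, 2, 0), (-1, 1, 0, 0, 0, 0)], [(-1, 0, 0, 0, 1, 0)], [(3, 0, 1, 0, 1, 0), (-1, 0, 2, 0, 0, 0)], [(3, 0, 0, 0, 1, 0), (3, 0, 0, 1, 1, 0), (-1, 0, 1, 1, 0, 0)]],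
  [[(-1, 0, 0, 0, 1, 0), (-1, 0, 1, 1, 0, 0)], [(1, 0, 0, 0, 2, 0), (-1, 0, 1, 0, 1, 0)], [(3, 0, 0, 0, 1, 0)], [(-3, 0, 0, 0, 2, 0), (3, 1, 0, 0, 0, 0)], [(-1, 0, 0, 0, 1, 0)], [(-3, 0, 0, 0, 2, 0), (3, 0, 1, 0, 1, 0), (-1, 0, 2, 0, 0, 0), (-1, 1, 0, 0, 0, 0)]],
  [[(-1, 0, 0, 1, 1, 0)], [(-1, 0, 0, 0, 0, 1)], [], [(3, 0, 0, 1, 0, 1)], [(1, 0, 1, 0, 0, 1)], [(3, 0, 0, 0, 0, 1)]],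
  [[(-1, 0, 0, 1, 0, 0)], [(-1, 0, 0, 0, 1, 0)], [], [(3, 0, 1, 0, 0, 0)], [], [(3, 0, 0, 0, 1, 0), (-1, 0, 1, 0, 0, 0)]],
  [[], [], [(3, 0, 0, 0, 1, 0), (-1, 0, 1, 0, 0, 0)], [(-1, 0, 0, 1, 0, 0)], [(-1, 0, 0, 0, 1, 0)]],
  [[(-1, 0, 0, 1, 0, 0), (-1, 0, 2, 0, 0, 0)], [(-1, 0, 1, 1, 0, 0)], [], [(3, 0, 1, 0, 0, 0)], [], [(-1, 0, 1, 0, 0, 0)]],
  [[], [(-1, 0, 0, 1, 0, 0)], [(-3, 0, 0, 1, 1, 0), (-1, 0, 1, 0, 0, 0)], [(-1, 0, 0, 1, 0, 0)], [(3, 0, 0, 1, 1, 0)], [(3, 0, 0, 1, 0, 0)]],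
  [[(-1, 0, 0, 1, 0, 0)], [(1, 0, 0, 1, 1, 0), (-1, 0, 1, 1, 0, 0)], [], [(-3, 0, 0, 1, 1, 0), (3, 0, 1, 0, 0, 0)], [], [(-1, 0, 1, 0, 0, 0)]],
  [[(-1, 0, 0, 0, 2, 0), (1, 0, 0, 1, 0, 0), (3, 0, 1, 0, 1, 0)], [(3, 0, 0, 1, 1, 0)], [], [(-3, 0, 1, 0, 0, 0)], [], [(1, 0, 1, 0, 0, 0)]],
  [[], [(-1, 0, 0, 0, 2, 0), (1, 0, 0, 1, 0, 0), (1, 1, 0, 0, 0, 0)], [(3, 0, 0, 1, 1, 0), (1, 0, 1, 0, 0, 0)], [(1, 0, 0, 1, 0, 0), (-3, 0, 0, 2, 0, 0)], [(-1, 0, 1, 1, 0, 0)], [(-3, 0, 0, 1, 0, 0), (-3, 1, 0, 0, 0, 0)]],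
  [[(1, 0, 0, 1, 0, 0), (1, 0, 2, 0, 0, 0)], [(-1, 0, 0, 1, 1, 0), (1, 0, 1, 1, 0, 0)], [(-1, 0, 0, 0, 2, 0), (-3, 1, 0, 0, 0, 0)], [(3, 0, 0, 1, 1, 0), (-3, 0, 1, 0, 0, 0)], [(1, 1, 0, 0, 0, 0)], [(1, 0, 1, 0, 0, 0)]],
  [[], [(1, 0, 0, 1, 0, 0)], [(3, 0, 0, 1, 1, 0), (1, 0, 1, 0, 0, 0)], [(-1, 0, 0, 0, 2, 0), (1, 0, 0, 1, 0, 0)], [], [(-3, 0, 0, 1, 0, 0)]],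
  [[(1, 0, 0, 1, 0, 0)], [(-1, 0, 0, 1, 1, 0)], [(-3, 0, 0, 1, 0, 0)], [(3, 0, 0, 1, 1, 0), (-3, 0, 1, 0, 0, 0)], [(-1, 0, 0, 0, 2, 0), (1, 0, 0, 1, 0, 0)], [(3, 0, 0, 1, 1, 0), (1, 0, 1, 0, 0, 0)]],
  [[], [(1, 0, 1, 0, 0, 1)], [(3, 0, 0, 0, 0, 1), (-1, 0, 0, 1, 1, 0)], [], [(-1, 0, 0, 0, 0, 1)], [(-1, 0, 0, 0, 2, 0)]]]

def a1 : Mat := [
  [[(1, 1, 0, 0, 1, 0)], [(-1, 0, 0, 0, 2, 0)], [(3, 1, 1, 0, 0, 0)], [(1, 0, 0, 0, 2, 0), (-3, 0, 1, 0, 1, 0)], [(3, 0, 1, 1, 0, 0), (-1, 1, 1, 0, 0, 0)], [], [(-7, 0, 0, 1, 2, 0), (3, 2, 0, 0, 0, 0)], [(3, 0, 1, 0, 2, 0), (3, 0, 2, 0, 1, 0), (1, 2, 0, 0, 1, 0)], [], [(-1, 0, 1, 0, 2, 0), (-1, 0, 2, 0, 1, 0), (-1, 1, 1, 0, 0, 0)], [(-1, 0, 1, 0, 1, 0), (-1,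 0, 2, 0, 0, 0), (3, 1, 0, 0, 0, 0)], [], [(-3, 1, 0, 0, 1, 0)], [(3, 1, 0, 0, 0, 0), (3, 2, 0, 0, 0, 0)], [(-1, 1, 1, 0, 0, 0)], [(2, 0, 1, 0, 1, 0), (-1, 0, 2, 0, 0, 0), (-1, 2, 0, 0, 0, 0)], [(-1, 0, 0, 1, 1, 0), (-1, 0, 1, 1, 0, 0)]],
  [[(1, 0, 0, 1, 1, 0)], [(-3, 0, 1, 0, 1, 0)], [], [(1, 0, 1, 0, 1, 0)], [(-3, 0, 0, 0, 0, 3)], [(1, 1, 1, 0, 0, 0)], [(-3, 0, 0, 0, 2, 0), (4, 0, 1, 0, 1, 0), (-1, 0, 2, 0, 0, 0)], [(1, 0, 0, 0, 3, 0), (-1, 0, 0, 2, 1, 0), (3, 1, 0, 0, 1, 0)], [(2, 0, 0, 0, 2, 0), (-3, 0, 1, 0, 1, 0)], [(-1, 1, 0, 0, 1, 0)], [(3, 0, 0, 0, 0, 1)], [(1, 0, 1, 0, 1, 0), (-1, 0, 2, 0, 0, 0)], [(-3, 0, 0, 1, 1, 0)], [(3, 0, 0, 0, 0, 1), (3, 0, 0, 0, 2, 0)], [], [(-1, 0, 0, 0, 2, 0)],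 [(1, 0, 0, 0, 0, 3)]],
  [[], [(-1, 0, 1, 0, 1, 0)], [(1, 0, 0, 1, 1, 0), (3, 0, 1, 0, 0, 0)], [], [(-1, 0, 1, 0, 0, 0)], [], [], [], [], [(-1, 0, 0, 1, 1, 0), (-3, 0, 1, 0, 0, 0)], [(-1, 0, 0, 0, 2, 0), (3, 0, 1, 0, 1, 0)], [], [(-1, 0, 0, 1, 1, 0)], [(3, 0, 1, 0, 1, 0)]],
  [[(-1, 0, 0, 0, 2, 0)], [], [(1, 0, 0, 0, 2, 0)], [(-2, 0, 0, 1, 1, 0)], [(3, 0, 0, 2, 0, 0)], [], [(-3, 0, 0, 2, 1, 0)], [(-2, 0, 0, 1, 2, 0), (-1, 0, 1, 0, 1, 0), (3, 0, 1, 1, 1, 0)], [(-1, 0, 0, 1, 1, 0)], [(3, 0, 1, 0, 1, 0), (-1, 0, 1, 1, 1, 0), (-1, 0, 2, 0, 0, 0)], [(-1, 0, 1, 1, 0, 0)], [], [(3, 0, 0, 0, 2, 0), (-1, 0, 1, 0, 1, 0)], [(-1, 0, 0, 1, 1, 0)], [(-3, 0, 0, 0, 2, 0), (3, 0, 1, 0, 1, 0), (-1, 0, 2, 0, 0, 0)],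 [(3, 0, 0, 1, 1, 0), (-1, 0, 1, 1, 0, 0)], [(-1, 0, 0, 2, 0, 0)]],
  [[(-1, 0, 1, 0, 1, 0)], [(1, 0, 0, 1, 1, 0)], [], [], [(-3, 0, 0, 2, 0, 0), (3, 0, 1, 0, 0, 2)], [], [(6, 0, 0, 2, 1, 0), (6, 0, 1, 0, 2, 0), (-3, 0, 2, 0, 1, 0), (1, 0, 3, 0, 0, 0), (-3, 1, 1, 0, 0, 0)], [(-3, 0, 1, 1, 1, 0), (-4, 1, 1, 0, 1, 0)], [(-3, 1, 1, 0, 0, 0)], [(-1, 0, 0, 0, 2, 0), (1, 0, 1, 1, 1, 0), (1, 0, 2, 0, 0, 0), (1, 1, 1, 0, 1, 0)], [(-3, 0, 1, 0, 0, 0), (1, 0, 1, 1, 0, 0), (1, 1, 1, 0, 0, 0)], [], [(3, 0, 1, 0, 1, 0)], [(-3, 0, 1, 0, 0, 0), (-3, 1, 1, 0, 0, 0)], [(-3, 0, 1, 0, 1, 0), (1, 0, 2, 0, 0, 0)], [(-3, 0, 0, 1, 1, 0), (1, 0, 1, 1, 0, 0), (1, 1, 1, 0, 0, 0)], [(1, 0, 0, 2, 0, 0), (-1, 0, 1, 0, 0, 2),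 (1, 0, 1, 0, 1, 0)]],
  [[], [], [], [(-1, 0, 1, 0, 0, 1)], [], [(-1, 0, 0, 0, 2, 0), (3, 0, 1, 0, 1, 0), (-1, 0, 2, 0, 0, 0)], [(3, 0, 0, 1, 1, 0), (-1, 0, 1, 1, 0, 0), (1, 0, 1, 1, 0, 1)], [], [(-2, 0, 0, 1, 1, 0)], [], [], [(1, 0, 0, 1, 1, 0), (-1, 0, 1, 1, 0, 0)]],
  [[], [(1, 0, 0, 0, 2, 0)], [(-3, 0, 0, 0, 1, 0), (-3, 0, 0, 1, 1, 0)], [], [(1, 0, 0, 0, 1, 0), (3, 0, 0, 1, 0, 2)], [], [(-1, 0, 0, 0, 2, 0), (6, 0, 0, 1, 2, 0), (-3, 0, 1, 0, 1, 0), (-3, 0, 1, 1, 1, 0), (1, 0, 2, 1, 0, 0)], [(-4, 0, 1, 0, 2, 0)], [(-1, 0, 2, 0, 0, 0)], [(3, 0, 0, 0, 1, 0), (3, 0, 0, 1, 1, 0), (1, 0, 1, 0, 2, 0)], [(-3, 0, 0, 1, 0, 0), (1, 0, 1, 0, 1, 0)], [], [(3, 0, 0, 1, 1, 0)], [(-3, 0, 0, 0, 2, 0), (-3, 0,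 0, 1, 0, 0), (-1, 0, 2, 0, 0, 0)], [], [(1, 0, 1, 0, 1, 0)], [(-1, 0, 0, 1, 0, 2), (1, 0, 0, 1, 1, 0)]],
  [[], [(-3, 0, 1, 0, 0, 0)], [], [(1, 0, 1, 0, 0, 0)], [(3, 0, 1, 0, 0, 1)], [], [], [(1, 0, 0, 0, 2, 0), (3, 1, 0, 0, 0, 0)], [(-3, 0, 0, 0, 0, 2)], [(-1, 1, 0, 0, 0, 0)], [(1, 0, 0, 0, 0, 2), (-1, 0, 2, 0, 0, 2)], [], [(-3, 0, 0, 1, 0, 0)], [(-3, 0, 0, 0, 0, 2), (3, 0, 0, 0, 1, 0)], [], [(1, 0, 0, 0, 0, 2), (-1, 0, 0, 0, 1, 0), (-1, 0, 2, 0, 0, 2)], [(1, 0, 0, 1, 0, 1), (-1, 0, 1, 0, 0, 1)]],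
  [[], [(1, 1, 0, 0, 1, 0)], [(-1, 0, 0, 0, 2, 0), (3, 0, 0, 1, 0, 0), (-3, 1, 0, 0, 0, 0)], [], [(1, 0, 0, 0, 2, 0), (-1, 0, 0, 1, 0, 0), (-3, 0, 1, 0, 0, 1), (1, 1, 0, 0, 0, 0)], [], [], [(-1, 0, 0, 0, 2, 0)], [], [(1, 0, 0, 0, 2, 0), (-3, 0, 0, 1, 0, 0), (3, 1, 0, 0, 0, 0)], [(3, 0, 0, 1, 1, 0), (-3, 1, 0, 0, 1, 0)], [], [(1, 0, 0, 0, 2, 0)], [(3, 0, 0, 1, 1, 0), (-3, 1, 0, 0, 1, 0)], [], [], [(-3, 0, 0, 0, 2, 0), (1, 0, 1, 0, 0, 1), (3, 0, 1, 0, 1, 0), (-1, 0, 2, 0, 0, 0)]],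
  [[(-1, 0, 1, 0, 0, 0)], [(1, 0, 0, 1, 0, 0)], [], [], [(3, 0, 1, 0, 0, 0)], [(-1, 0, 0, 1, 0, 1)], [(-1, 0, 0, 0, 2, 0), (-3, 0, 1, 0, 1, 0), (1, 1, 0, 0, 0, 0)], [(-1, 0, 0, 0, 0, 2), (3, 1, 1, 0, 0, 0)], [], [(-1, 1, 1, 0, 0, 0)], [(1, 0, 1, 0, 0, 2), (-3, 1, 0, 0, 0, 0)], [], [(-1, 0, 0, 0, 0, 2), (1, 0, 0, 0, 1, 0)], [], [], [(1, 0, 1, 0, 0, 2)], [(-3, 0, 0, 0, 1, 0)]],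
  [[], [(3, 1, 0, 0, 0, 0)], [(3, 0, 0, 0, 1, 0)], [(-1, 0, 0, 1, 0, 0), (-1, 1, 0, 0, 0, 0)], [(-1, 0, 0, 0, 1, 0)], [], [(1, 0, 0, 2, 0, 0), (-1, 0, 1, 0, 0, 1), (1, 0, 1, 0, 0, 2)], [], [], [(1, 0, 0, 0, 0, 2), (-3, 0, 0, 0, 1, 0), (1, 0, 1, 0, 0, 0)], [], [(-1, 0, 1, 0, 0, 1)], [(1, 0, 1, 0, 0, 0)], [], [(1, 0, 0, 0, 0, 2), (-1, 0, 0, 0, 1, 0)]],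
  [[], [(3, 0, 0, 0, 1, 0), (-1, 0, 1, 0, 0, 0)], [], [(1, 0, 0, 0, 0, 2), (-1, 0, 0, 0, 1, 0)], [], [(1, 0, 1, 0, 0, 1)], [], [(3, 0, 0, 0, 2, 0), (-3, 0, 1, 0, 1, 0), (1, 0, 2, 0, 0, 0), (1, 1, 0, 0, 0, 0)], [(-1, 0, 0, 0, 0, 2), (1, 0, 0, 0, 1, 0)], [], [], [], [], [(-1, 0, 0, 0, 0, 2), (1, 0, 0, 0, 1, 0)]],
  [[(1, 0, 0, 0, 2, 0)], [(-3, 0, 0, 1, 1, 0), (-3, 1, 1, 0, 0, 0)], [], [(1, 0, 1, 1, 0, 0), (1, 1, 1, 0, 0, 0)], [], [], [(3, 1, 0, 0, 1, 0)], [(-1, 0, 0, 1, 2, 0), (-1, 0, 2, 0, 0, 0), (1, 1, 0, 0, 2, 0)], [(-1, 0, 1, 1, 0, 0)], [], [(3, 0, 0, 0, 1, 0)], [], [(-3, 0, 0, 0, 2, 0), (-1, 0, 2, 0, 0, 0)], [(3, 0, 0, 0, 1, 0), (-1, 0, 1, 1, 0, 0), (3, 1, 0, 0, 1, 0)], [], [(-1, 1, 0, 0, 1,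 0)]],
  [[], [(3, 0, 1, 0, 1, 0)], [], [(-1, 0, 0, 2, 0, 0), (-1, 0, 1, 0, 1, 0)], [], [(-1, 1, 1, 0, 0, 0)], [(3, 0, 0, 0, 2, 0), (-4, 0, 1, 0, 1, 0), (1, 0, 2, 0, 0, 0)], [(-1, 0, 0, 0, 3, 0), (3, 0, 0, 2, 1, 0), (1, 0, 1, 1, 0, 0), (-3, 1, 0, 0, 1, 0)], [(-3, 0, 0, 0, 2, 0), (1, 0, 0, 2, 0, 0), (3, 0, 1, 0, 1, 0)], [(1, 1, 0, 0, 1, 0)], [], [(-1, 0, 1, 0, 1, 0), (1, 0, 2, 0, 0, 0)], [(1, 0, 1, 1, 0, 0)], [(-3, 0, 0, 0, 2, 0), (1, 0, 0, 2, 0, 0)], [], [(1, 0, 0, 0, 2, 0)]],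
  [[(-1, 0, 0, 1, 0, 0)], [], [(3, 0, 0, 0, 0, 1)], [], [(-1, 0, 0, 0, 0, 1)], [(-1, 1, 0, 0, 0, 0)], [(1, 0, 0, 0, 0, 2)], [(1, 0, 0, 2, 0, 0)], [(1, 0, 1, 0, 0, 0)], [(-3, 0, 0, 0, 0, 1)], [(-3, 0, 0, 0, 1, 0), (1, 0, 1, 0, 0, 0)], [(1, 0, 0, 0, 0, 2), (-1, 0, 0, 0, 1, 0), (1, 0, 1, 0, 0, 0)], [], [(-3, 0, 0, 0, 1, 0), (1, 0, 1, 0, 0, 0)]],
  [[], [], [(3, 0, 1, 0, 0, 0)], [(-3, 0, 0, 1, 0, 0)], [(3, 0, 0, 0, 0, 2), (-1, 0, 1, 0, 0, 0)], [], [(6, 0, 0, 0, 2, 0), (3, 0, 0, 2, 0, 0), (-3, 0, 1, 0, 1, 0), (1, 0, 2, 0, 0, 0)], [(-3, 1, 0, 0, 1, 0)], [(-3, 1, 0, 0, 0, 0)], [(3, 0, 0, 0, 0, 2), (1, 1, 0, 0, 1, 0)], [(1, 1, 0, 0, 0, 0)], [], [], [], [(3, 0, 0, 0, 0, 2), (-3, 0, 0, 0, 1, 0)], [], [(-1,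 0, 0, 0, 0, 2), (1, 0, 0, 0, 1, 0), (1, 0, 1, 0, 0, 1)]]]

def a2 : Mat := [
  [[], [(-3, 0, 0, 0, 2, 0), (3, 0, 1, 0, 1, 0), (-1, 0, 2, 0, 0, 0)], [], [(-1, 0, 1, 0, 0, 1)], [(-1, 0, 1, 0, 0, 1)], [], [], [(1, 0, 0, 0, 3, 0), (-3, 0, 1, 0, 2, 0), (1, 0, 2, 0, 1, 0)], [(1, 0, 1, 0, 0, 2)], [(3, 0, 0, 0, 2, 0), (-1, 0, 1, 0, 1, 0)], [], [(2, 0, 0, 2, 1, 0)], [(3, 0, 0, 1, 1, 0), (-1, 0, 1, 1, 0, 0)], [(-2, 0, 0, 0, 2, 0), (3, 0, 1, 0, 1, 0), (-1, 0, 2, 0, 0, 0)], [(-1, 0, 1, 1, 0, 1)], [(1, 0, 2, 0, 0, 1)]],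
  [[(-1, 1, 2, 0, 0, 0)], [(3, 0, 1, 0, 0, 1), (-1, 1, 2, 0, 0, 0)], [(-1, 0, 0, 1, 0, 1), (-1, 0, 2, 0, 0, 0), (3, 0, 2, 0, 0, 1)], [(3, 0, 0, 0, 0, 2), (-2, 0, 0, 0, 1, 0), (-1, 0, 3, 0, 0, 0)], [(3, 0, 0, 0, 0, 2), (-2, 0, 0, 0, 1, 0), (-1, 0, 3, 0, 0, 0), (-1, 2, 1, 0, 0, 0)], [(-3, 0, 0, 0, 0, 1)], [(3, 0, 0, 1, 0, 0), (-1, 1, 0, 0, 0, 0), (3, 1, 2, 0, 0, 0)], [(1, 0, 0, 0, 1, 0), (1, 0, 2, 0, 0, 2), (3, 1, 0, 0, 1, 0), (-3, 1, 1, 0, 0, 0), (3, 1, 2, 0, 1, 0), (-3, 2, 1, 0, 0, 0)], [(1, 0, 0, 0, 1, 0), (1, 0, 2, 0, 0, 2), (1, 0, 3, 0, 0, 1)], [(-3, 0, 0, 1, 0, 0), (1, 0, 3, 0, 0, 2), (1, 0, 3, 0, 1, 0), (-6, 1, 1, 0, 1, 0)], [(1, 0, 0, 0, 2, 0), (3, 0, 0, 1, 0, 0), (-3, 0, 2, 0, 0, 0), (3,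 0, 3, 0, 1, 0)], [(-2, 0, 0, 1, 1, 0), (-3, 0, 1, 0, 0, 0), (-1, 1, 0, 0, 1, 0), (-1, 1, 2, 0, 1, 0)], [(-2, 0, 0, 0, 1, 0), (-3, 0, 1, 0, 0, 0)], [(-2, 1, 0, 0, 0, 0), (-1, 1, 2, 0, 0, 0)], [(-2, 0, 0, 0, 1, 0), (1, 0, 1, 1, 0, 0), (6, 0, 2, 0, 1, 0), (-3, 0, 3, 0, 0, 0), (-1, 0, 3, 1, 0, 0), (-1, 1, 1, 0, 0, 0)], [(-3, 0, 0, 2, 0, 0), (3, 0, 1, 0, 1, 0), (-3, 0, 3, 0, 1, 0), (1, 0, 4, 0, 0, 0), (2, 1, 0, 0, 0, 0), (-1, 1, 1, 0, 1, 0), (-3, 1, 2, 0, 0, 0), (1, 2, 2, 0, 0, 0)]],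
  [[(1, 1, 1, 0, 0, 0)], [(1, 1, 1, 0, 0, 0)], [(3, 0, 0, 0, 1, 0), (-3, 0, 1, 0, 0, 1)], [(1, 0, 2, 0, 0, 0)], [(1, 0, 2, 0, 0, 0), (1, 2, 0, 0, 0, 0)], [], [(-3, 1, 1, 0, 0, 0)], [(-1, 0, 1, 0, 0, 2), (3, 1, 0, 0, 0, 0), (-3, 1, 1, 0, 1, 0), (3, 2, 0, 0, 0, 0)], [(-1, 0, 1, 0, 0, 2), (-1, 0, 2, 0, 0, 1)], [(-1, 0, 2, 0, 0, 2), (-1, 0, 2, 0, 1, 0), (6, 1, 0, 0, 1, 0)], [(-3, 0, 2, 0, 1, 0)], [(1, 1, 1, 0, 1, 0)], [], [(1, 1, 1, 0, 0, 0)], [(-1, 0, 0, 0, 2, 0), (-3, 0, 1, 0, 1, 0), (3, 0, 2, 0, 0, 0), (1, 0, 2, 1, 0, 0)], [(3, 0, 2, 0, 1, 0), (-1, 0, 3, 0, 0, 0), (1, 1, 0, 0, 1, 0), (3, 1, 1, 0, 0, 0), (-1, 2, 1, 0, 0, 0)]],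
  [[], [], [(1, 0, 0, 1, 0, 0), (-3, 0, 0, 1, 0, 1)], [], [(1, 1, 0, 0, 1, 0)], [], [(-1, 0, 1, 0, 1, 0)], [(-1, 0, 0, 0, 0, 1), (1, 0, 1, 0, 0, 0), (3, 1, 0, 0, 1, 0)], [(-1, 0, 0, 0, 0, 1)], [(6, 0, 0, 0, 2, 0), (-1, 0, 1, 0, 0, 1), (-2, 0, 1, 0, 1, 0), (1, 0, 2, 0, 0, 0)], [(2, 0, 1, 0, 1, 0), (1, 1, 2, 0, 0, 0)], [(-2, 1, 1, 0, 0, 0)], [(1, 1, 1, 0, 0, 0)], [], [(-6, 0, 0, 1, 1, 0), (3, 0, 1, 1, 0, 0)], [(1, 0, 0, 0, 2, 0), (3, 0, 1, 0, 1, 0), (-1, 1, 1, 0, 1, 0)]],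
  [[(-1, 0, 0, 0, 0, 2), (1, 0, 0, 0, 1, 0)], [(1, 0, 0, 0, 1, 0)], [], [(1, 0, 0, 1, 0, 0)], [(1, 0, 0, 1, 0, 0)], [], [(-2, 0, 0, 0, 1, 0)], [(-3, 0, 0, 0, 2, 0)], [(-1, 0, 0, 1, 0, 1)], [(2, 0, 0, 0, 1, 0), (-1, 0, 0, 1, 1, 0), (-1, 0, 1, 0, 0, 0)], [(-2, 0, 0, 0, 1, 0), (-3, 0, 0, 1, 1, 0), (-1, 1, 1, 0, 0, 0)], [(1, 0, 0, 0, 2, 0), (2, 1, 0, 0, 0, 0)], [(-1, 1, 0, 0, 0, 0)], [(1, 0, 0, 0, 1, 0)], [(1, 0, 0, 2, 0, 0)], [(3, 0, 0, 1, 1, 0), (-1, 0, 1, 1, 0, 0)]]]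

def b0 : Mat := [
  [[], [(-1, 0, 0, 1, 1, 0)], [(-1, 1, 0, 0, 0, 0)], [(-1, 0, 0, 0, 1, 0)]],
  [[(-1, 0, 0, 0, 1, 0)], [(1, 0, 0, 2, 0, 0)], [], [], [(-1, 0, 0, 0, 1, 0)], [(-1, 1, 0, 0, 0, 0)]],
  [[], [], [(1, 0, 0, 2, 0, 0), (-1, 1, 0, 0, 0, 0)], [(-1, 0, 0, 0, 1, 0)], [], [(1, 0, 0, 1, 1, 0)]],
  [[(-1, 0, 0, 0, 1, 0)], [], [], [], [(-1, 0, 0, 0, 1, 0), (-1, 0, 0, 1, 1, 0)], [(-1, 1, 0, 0, 0, 0)]],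
  [[], [(-1, 0, 0, 0, 1, 0)], [(-1, 1, 0, 0, 0, 0)], [(-1, 0, 0, 0, 1, 0)], [(1, 0, 0, 2, 0, 0), (-1, 0, 1, 0, 1, 0)]],
  [[], [(1, 0, 1, 0, 0, 1)], [], [], [(-1, 0, 0, 0, 0, 1)]],
  [[], [], [(-1, 0, 1, 0, 0, 0)], [(-1, 0, 0, 1, 0, 0)], [(-1, 0, 0, 0, 1, 0)]],
  [[(-1, 0, 0, 1, 0, 0)], [(-1, 0, 0, 0, 1, 0)], [], [], [], [(-1, 0, 1, 0, 0, 0)]],
  [[], [], [(-1, 0, 1, 0, 0, 0)], [(-1, 0, 0, 1, 0, 0)], [], [(1, 0, 0, 2, 0, 0)]],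
  [[(-1, 0, 0, 1, 0, 0)], [], [], [], [(-1, 0, 0, 1, 0, 0)], [(-1, 0, 1, 0, 0, 0)]],
  [[], [], [(-1, 0, 1, 0, 0, 0)], [(-1, 0, 0, 1, 0, 0)], [(-1, 0, 1, 1, 0, 0)]],
  [[], [], [(1, 0, 1, 0, 0, 0)], [(1, 0, 0, 1, 0, 0)]],
  [[(1, 0, 0, 1, 0, 0)], [(-1, 0, 1, 1, 0, 0)], [], [], [(1, 0, 0, 1, 0, 0), (1, 1, 0, 0, 0, 0)], [(1, 0, 1, 0, 0, 0)]],
  [[], [(1, 1, 0, 0, 0, 0)], [(1, 0, 1, 0, 0, 0)], [(1, 0, 0, 1, 0, 0)], [], [(-1, 0, 0, 2, 0, 0)]],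
  [[(1, 0, 0, 1, 0, 0)], [], [], [], [(1, 0, 0, 1, 0, 0)], [(1, 0, 1, 0, 0, 0)]],
  [[], [(1, 0, 0, 1, 0, 0)], [(1, 0, 1, 0, 0, 0)], [(1, 0, 0, 1, 0, 0)]],
  [[], [(-1, 0, 0, 0, 0, 1)], [], [], [(1, 0, 1, 0, 0, 1)]]]

def b1 : Mat := [
  [[], [(-1, 1, 1, 0, 0, 0)], [], [], [], [], [(-1, 0, 1, 0, 2, 0), (-1, 0, 2, 0, 1, 0), (-1, 1, 1, 0, 0, 0)], [(-1, 0, 1, 0, 1, 0)], [(-1, 0, 0, 1, 1, 0)], [(1, 0, 0, 2, 0, 0), (-1, 1, 0, 0, 0, 0)], [], [(-1, 1, 1, 0, 0, 0)], [(-1, 0, 1, 0, 1, 0), (-1, 2, 0, 0, 0, 0)], [(-1, 0, 0, 1, 1, 0)], [(1, 0, 0, 2, 0, 0), (-1, 1, 0, 0, 0, 0)]],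
  [[(1, 0, 1, 0, 1, 0)], [], [], [], [], [(1, 0, 0, 2, 0, 0)], [(-1, 1, 0, 0, 1, 0)], [], [(1, 0, 0, 0, 0, 3)], [(-1, 0, 0, 0, 0, 1), (1, 0, 0, 1, 0, 1)], [], [], [(-1, 0, 0, 0, 2, 0), (1, 0, 0, 1, 0, 1)], [(1, 0, 0, 0, 0, 3)], [(-1, 0, 0, 0, 0, 1)]],
  [[], [(-1, 0, 1, 0, 0, 0)], [], [], [], [], [], [], [], [], [(1, 0, 0, 1, 0, 1), (1, 0, 1, 1, 0, 0)], [], [], [], [], [(1, 0, 0, 1, 0, 1), (1, 0, 1, 1, 0, 0)], [(1, 0, 0, 2, 0, 0)]],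
  [[(1, 0, 0, 1, 1, 0)], [], [], [], [], [(-1, 0, 0, 1, 1, 0)], [(-1, 0, 1, 1, 1, 0)]],
  [[], [], [], [], [], [(-1, 0, 2, 0, 0, 1)], [(1, 0, 1, 1, 1, 0), (1, 0, 2, 0, 0, 0), (1, 1, 1, 0, 1, 0)], [(1, 0, 1, 1, 0, 0), (1, 1, 1, 0, 0, 0)], [(1, 0, 0, 2, 0, 0), (-1, 0, 1, 0, 0, 2), (1, 0, 1, 0, 1, 0)], [(1, 0, 1, 0, 0, 0), (-1, 0, 1, 1, 0, 0)], [], [(1, 0, 2, 0, 0, 0)], [(1, 1, 1, 0, 0, 0)], [(1, 0, 0, 2, 0, 0), (-1, 0, 1, 0, 0, 2), (1, 0, 1, 0, 1, 0)], [(1, 0, 1, 0, 0, 0)]],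
  [[(-1, 0, 1, 0, 0, 1)], [], [], [], [], [(-1, 0, 0, 1, 0, 2)]],
  [[], [(1, 0, 0, 0, 1, 0)], [], [], [], [(-1, 0, 1, 1, 0, 1)], [(1, 0, 1, 0, 2, 0), (1, 0, 1, 1, 0, 0)], [(1, 0, 0, 2, 0, 0), (1, 0, 1, 0, 1, 0)], [(-1, 0, 0, 1, 0, 2), (1, 0, 0, 1, 1, 0)], [(1, 0, 0, 1, 0, 0), (-1, 0, 0, 2, 0, 0)], [], [(1, 0, 1, 1, 0, 0)], [(1, 0, 1, 0, 1, 0)], [(-1, 0, 0, 1, 0, 2), (1, 0, 0, 1, 1, 0)], [(1, 0, 0, 1, 0, 0)]],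
  [[(1, 0, 1, 0, 0, 0)], [], [], [], [], [(1, 0, 0, 1, 0, 1)], [(-1, 1, 0, 0, 0, 0)], [(1, 0, 0, 0, 0, 2), (-1, 0, 2, 0, 0, 2)], [], [(1, 0, 0, 1, 0, 1)], [], [], [(1, 0, 0, 0, 0, 2), (-1, 0, 0, 0, 1, 0), (-1, 0, 2, 0, 0, 2)], [], [(1, 0, 0, 1, 0, 1)]],
  [[], [(-1, 0, 0, 1, 0, 0), (1, 1, 0, 0, 0, 0)], [], [], [], [], [], [], [], [(-1, 0, 0, 1, 0, 1)], [(1, 0, 0, 2, 0, 0), (-1, 0, 1, 0, 1, 0)], [], [], [], [(-1, 0, 0, 1, 0, 1)], [(1, 0, 0, 2, 0, 0), (-1, 0, 1, 0, 1, 0)], [(-1, 0, 0, 1, 1, 0)]],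
  [[], [], [], [(-1, 0, 1, 0, 0, 0)], [(1, 0, 0, 1, 0, 0)], [], [(-1, 1, 1, 0, 0, 0)], [(1, 0, 1, 0, 0, 2)], [], [(1, 0, 0, 1, 0, 0), (1, 1, 0, 0, 0, 0)], [(-1, 0, 0, 0, 0, 2)], [], [(1, 0, 1, 0, 0, 2)], [], [(1, 0, 0, 1, 0, 0)], [(-1, 0, 0, 0, 0, 2), (1, 0, 0, 0, 1, 0)], [(-1, 0, 0, 1, 0, 1)]],
  [[(-1, 0, 0, 1, 0, 0), (-1, 1, 0, 0, 0, 0)], [(-1, 0, 0, 0, 1, 0)], [], [], [], [(-1, 0, 0, 0, 0, 3)], [(1, 0, 0, 0, 0, 2)], [], [], [], [], [(1, 0, 0, 0, 0, 2), (-1, 0, 0, 0, 1, 0)]],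
  [[(1, 0, 0, 0, 0, 2), (-1, 0, 0, 0, 1, 0)], [], [], [], [(-1, 0, 1, 0, 0, 0)], [(1, 0, 0, 0, 1, 0)], [], [], [(-1, 0, 0, 1, 0, 0)], [], [(-1, 0, 0, 1, 0, 0), (1, 1, 0, 0, 0, 0)], [(-1, 0, 0, 1, 0, 0)], [], [(-1, 0, 0, 1, 0, 0)], [], [], [(1, 0, 0, 0, 1, 0)]],
  [[(1, 0, 1, 1, 0, 0), (1, 1, 1, 0, 0, 0)], [], [], [], [], [], [(1, 0, 0, 2, 0, 0)], [], [], [(-1, 0, 0, 0, 1, 0)], [], [(1, 0, 0, 2, 0, 0)], [(-1, 1, 0, 0, 1, 0)], [], [(-1, 0, 0, 0, 1, 0)]],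
  [[(-1, 0, 0, 2, 0, 0), (-1, 0, 1, 0, 1, 0)], [], [], [], [], [], [(1, 1, 0, 0, 1, 0)], [], [], [], [], [], [(1, 0, 0, 0, 2, 0)]],
  [[], [(-1, 0, 0, 0, 0, 1)], [], [(-1, 0, 0, 1, 0, 0)], [], [], [], [], [], [(1, 0, 0, 0, 1, 0)], [(1, 0, 0, 1, 0, 1)], [], [], [], [], [(1, 0, 0, 1, 0, 1)]],
  [[], [(-1, 0, 1, 0, 0, 0)], [], [], [], [], [(1, 1, 0, 0, 1, 0)], [(1, 1, 0, 0, 0, 0)], [(-1, 0, 0, 0, 0, 2), (1, 0, 0, 0, 1, 0)], [(-1, 0, 0, 1, 0, 0)], [], [], [(-1, 0, 0, 1, 0, 0)], [(-1, 0, 0, 0, 0, 2), (1, 0, 0, 0, 1, 0)]]]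

def b2 : Mat := [
  [[], [(-1, 0, 0, 1, 0, 2)], [], [], [], [(-1, 0, 0, 2, 0, 0), (1, 0, 1, 0, 0, 2)], [], [], [], [(-1, 0, 0, 0, 0, 3)], [], [], [], [(1, 0, 1, 0, 0, 1)], [], [(-1, 0, 0, 1, 0, 3)]],
  [[(-1, 0, 0, 1, 0, 1)], [(-1, 0, 0, 1, 0, 1), (-1, 1, 1, 0, 0, 0)], [], [(-1, 0, 2, 0, 0, 0)], [], [(1, 0, 3, 0, 0, 1), (-1, 1, 2, 0, 0, 0)], [(-1, 0, 0, 0, 0, 2), (1, 0, 0, 0, 1, 0), (1, 0, 2, 0, 0, 2)], [(1, 0, 0, 2, 0, 0), (1, 0, 1, 0, 1, 0), (1, 2, 2, 0, 0, 0)], [], [(-1, 0, 0, 0, 1, 0), (-1, 0, 2, 0, 0, 2), (-1, 2, 1, 0, 0, 0)], [(1, 0, 0, 0, 1, 0), (1, 0, 1, 1, 0, 0), (-1, 0, 3, 1, 0, 0)], [(-1, 1, 0, 0, 0, 0)], [(-1, 1, 2, 0, 0, 0)], [(1, 0, 3, 0, 0, 0), (-1, 1, 1, 0, 0, 0)], [], [(-1, 0,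 0, 1, 1, 0), (-1, 0, 2, 1, 0, 2)]],
  [[(-1, 0, 0, 1, 0, 0)], [(1, 1, 0, 0, 0, 0)], [], [(1, 0, 1, 0, 0, 0)], [(-1, 0, 0, 0, 1, 0)], [(-1, 0, 2, 0, 0, 1), (1, 1, 1, 0, 0, 0)], [(-1, 0, 1, 0, 0, 2)], [(-1, 2, 1, 0, 0, 0)], [], [(1, 0, 0, 2, 0, 0), (1, 0, 1, 0, 0, 2), (1, 2, 0, 0, 0, 0)], [(1, 0, 2, 1, 0, 0)], [], [(1, 1, 1, 0, 0, 0)], [(-1, 0, 2, 0, 0, 0), (1, 1, 0, 0, 0, 0)], [], [(1, 0, 1, 0, 1, 0), (1, 0, 1, 1, 0, 2)]],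
  [[], [(1, 0, 0, 0, 1, 0)], [], [(1, 0, 0, 1, 0, 0)], [], [], [], [], [], [(1, 1, 0, 0, 1, 0)], [], [], [], [(1, 0, 0, 0, 1, 0)], [(-1, 0, 1, 0, 1, 0)], [(1, 1, 1, 0, 0, 0)]],
  [[], [], [], [], [], [(1, 0, 0, 0, 1, 0), (-1, 0, 0, 1, 0, 1)], [], [(-1, 1, 0, 0, 1, 0)], [], [], [(1, 0, 0, 2, 0, 0)], [], [(-1, 0, 0, 0, 0, 2), (1, 0, 0, 0, 1, 0)], [(-1, 0, 0, 1, 0, 0)], [(1, 0, 0, 0, 1, 0)], [(-1, 1, 0, 0, 0, 0)]]]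

def c0 : Mat := [
  [],
  [[], [], [], [], [(-1, 0, 0, 0, 1, 0)]],
  [[], [(-1, 0, 0, 1, 1, 0)], [(-1, 0, 0, 0, 2, 0)]],
  [[], [(-1, 0, 0, 0, 2, 0)], [], [], [(-1, 0, 0, 0, 1, 0)]],
  [[], [], [(-1, 0, 0, 0, 2, 0)], [], [], [(-1, 0, 0, 0, 1, 0)]],
  [[(1, 1, 0, 0, 0, 0)], [], [], [(1, 0, 0, 0, 1, 0)], [(-1, 0, 0, 0, 0, 1)]],
  [[], [(1, 1, 0, 0, 0, 0)]],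
  [[], [], [(1, 1, 0, 0, 0, 0)]],
  [[], [], [(-1, 0, 0, 1, 1, 0)], [(1, 1, 0, 0, 0, 0)]],
  [[], [(-1, 0, 0, 1, 1, 0)], [], [], [(-1, 0, 0, 1, 0, 0), (1, 1, 0, 0, 0, 0)]],
  [[], [], [(-1, 0, 0, 1, 1, 0)], [], [], [(1, 1, 0, 0, 0, 0)]],
  [[], [], [], [(-1, 1, 0, 0, 0, 0)]],
  [[], [], [], [], [(1, 0, 0, 1, 0, 0)]],
  [[], [], [(1, 0, 0, 1, 1, 0)]],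
  [[], [(1, 0, 0, 1, 1, 0)], [], [], [(1, 0, 0, 1, 0, 0)]],
  [[], [], [(1, 0, 0, 1, 1, 0)], [], [], [(1, 0, 0, 1, 0, 0)]],
  [[], [], [], [], [], [(-1, 0, 0, 0, 0, 1)]]]

def g0 : Mat := [
  [],
  [[], [], [], [], [(-1, 1, 0, 0, 1, 0)]],
  [[], [(-1, 0, 1, 0, 2, 0)], [(-1, 1, 0, 0, 2, 0)]],
  [[], [(-1, 1, 0, 0, 2, 0)], [], [], [(-1, 1, 0, 0, 1, 0)]],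
  [[], [], [(-1, 1, 0, 0, 2, 0)], [], [], [(-1, 1, 0, 0, 1, 0)]],
  [[(1, 2, 0, 0, 0, 0)], [], [], [(1, 1, 0, 0, 1, 0)]],
  [[], [(1, 2, 0, 0, 0, 0)]],
  [[], [], [(1, 2, 0, 0, 0, 0)]],
  [[(1, 0, 0, 0, 0, 1)], [], [(-1, 0, 1, 0, 2, 0)], [(1, 2, 0, 0, 0, 0)]],
  [[], [(1, 0, 0, 0, 0, 1), (-1, 0, 1, 0, 2, 0)], [], [], [(-1, 0, 1, 0, 1, 0), (1, 2, 0, 0, 0, 0)]],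
  [[(1, 0, 0, 0, 0, 1)], [], [(1, 0, 0, 0, 0, 1), (-1, 0, 1, 0, 2, 0)], [], [], [(1, 2, 0, 0, 0, 0)]],
  [[(-1, 0, 0, 0, 0, 1)], [], [], [(-1, 2, 0, 0, 0, 0)]],
  [[], [(-1, 0, 0, 0, 0, 1)], [], [], [(1, 0, 1, 0, 1, 0)]],
  [[(-1, 0, 0, 0, 0, 1)], [], [(-1, 0, 0, 0, 0, 1), (1, 0, 1, 0, 2, 0)]],
  [[], [(-1, 0, 0, 0, 0, 1), (1, 0, 1, 0, 2, 0)], [], [(-1, 0, 0, 0, 0, 1)], [(1, 0, 1, 0, 1, 0)]],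
  [[(-1, 0, 0, 0, 0, 1)], [], [(-1, 0, 0, 0, 0, 1), (1, 0, 1, 0, 2, 0)], [], [(-1, 0, 0, 0, 0, 1)], [(1, 0, 1, 0, 1, 0)]],
  []]

def g1 : Mat := [
  [[], [], [], [(1, 0, 0, 0, 0, 1), (-1, 0, 1, 0, 2, 0), (-1, 0, 2, 0, 1, 0)], [], [], [(-1, 0, 0, 1, 0, 1), (-1, 2, 0, 0, 1, 0)], [], [], [], [], [], [(-1, 1, 0, 0, 2, 0), (-1, 1, 1, 0, 1, 0)], [(1, 1, 1, 0, 2, 0), (1, 1, 2, 0, 1, 0)]],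
  [[(-1, 2, 0, 0, 0, 0)], [], [(1, 2, 0, 0, 0, 0)], [(-1, 1, 1, 0, 0, 0)], [(1, 1, 1, 0, 1, 0)], [], [(1, 0, 1, 0, 2, 0)], [(1, 1, 0, 0, 2, 0)], [], [], [], [], [], [(1, 0, 1, 0, 2, 0), (1, 2, 0, 0, 1, 0)], [(-1, 2, 0, 0, 0, 0)]],
  [[], [], [], [], [], [], [], [], [], [], [(1, 1, 1, 0, 0, 0)], [], [], [], [], [], [(-1, 2, 0, 0, 0, 0)]],
  [[], [], [(1, 0, 0, 0, 0, 1)], [(-1, 0, 1, 1, 1, 0)], [], [], [], [], [], [], [], [], [(-1, 0, 1, 0, 2, 0)], [(1, 0, 2, 0, 2, 0), (-1, 1, 0, 0, 2, 0)]],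
  [[(1, 2, 1, 0, 0, 0)], [(-1, 1, 1, 0, 1, 0)], [], [(1, 0, 1, 1, 1, 0), (1, 1, 1, 0, 1, 0)], [(-1, 1, 1, 0, 0, 0)], [], [(1, 1, 1, 0, 1, 0)], [], [], [(-1, 0, 0, 0, 0, 1)], [], [], [(-1, 0, 0, 0, 0, 1), (1, 0, 1, 0, 2, 0)], [(-1, 0, 2, 0, 2, 0), (-1, 2, 1, 0, 1, 0)], [], [(-1, 2, 0, 0, 0, 0)]],
  [[], [], [], [(-1, 0, 1, 0, 1, 0)], [], [], [], [(1, 0, 0, 0, 0, 2), (-1, 0, 1, 0, 2, 0)], [(-1, 2, 0, 0, 0, 0)], [], [], [(-1, 2, 0, 0, 0, 0)], [], [], [(-1, 1, 0, 0, 1, 0)]],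
  [[(1, 1, 1, 0, 1, 0)], [(1, 0, 0, 0, 0, 1), (-1, 0, 1, 0, 2, 0)], [(-1, 2, 0, 0, 0, 0)], [(1, 0, 1, 0, 2, 0)], [(-1, 0, 1, 0, 1, 0), (1, 2, 0, 0, 0, 0)], [], [], [], [], [], [], [], [], [(1, 1, 0, 0, 1, 0), (-1, 1, 1, 0, 2, 0)], [], [(-1, 1, 0, 0, 1, 0)]],
  [[], [], [], [], [(1, 0, 0, 0, 0, 1), (1, 1, 1, 0, 0, 0)], [(-1, 0, 1, 0, 0, 2)], [(-1, 0, 0, 0, 0, 2), (-1, 0, 1, 0, 0, 1)], [(-1, 0, 2, 0, 0, 1)], [], [], [], [], [], [(1, 0, 1, 0, 1, 0), (1, 2, 0, 0, 0, 0)], [], [], [(-1, 0, 0, 0, 0, 2)]],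
  [[], [], [], [], [], [], [(1, 0, 0, 0, 0, 2)], [], [], [], [(1, 0, 1, 0, 1, 0), (-1, 2, 0, 0, 0, 0)], [], [], [], [], [], [(-1, 1, 0, 0, 1, 0)]],
  [[], [], [], [(-1, 1, 1, 0, 0, 0)], [], [(1, 0, 0, 0, 0, 2)], [], [(1, 0, 1, 0, 0, 1)], [], [], [], [], [(-1, 2, 0, 0, 0, 0)], [(1, 2, 1, 0, 0, 0)]],
  [[], [], [], [], [(-1, 2, 0, 0, 0, 0)], [], [], [], [], [], [], [], [], [(-1, 1, 0, 0, 1, 0)]],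
  [[], [(1, 2, 0, 0, 0, 0)], [(-1, 1, 0, 0, 1, 0)], [], [], [], [], [], [], [(1, 1, 0, 0, 1, 0)], [], [], [(1, 1, 0, 0, 1, 0)]],
  [[(1, 0, 0, 0, 0, 1)], [(-1, 2, 0, 0, 0, 0)], [], [(1, 2, 0, 0, 0, 0)], [(1, 2, 1, 0, 0, 0)], [], [], [(-1, 0, 0, 1, 0, 1)]],
  [[(1, 2, 0, 0, 0, 0)], [], [(-1, 2, 0, 0, 0, 0)], [], [(-1, 1, 1, 0, 1, 0)], [], [(-1, 0, 1, 0, 2, 0)], [(-1, 1, 0, 0, 2, 0)], [(-1, 0, 0, 0, 0, 1)], [], [(-1, 0, 0, 0, 0, 1)], [(-1, 0, 0, 0, 0, 1)], [], [(-1, 0, 0, 0, 0, 1), (-1, 2, 0, 0, 1, 0)]],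
  [],
  [[(1, 2, 0, 0, 0, 0)], [(-1, 1, 0, 0, 1, 0)], [], [(1, 1, 0, 0, 1, 0)], [], [], [], [], [], [], [], [], [], [(-1, 2, 0, 0, 1, 0)]]]

def al : Mat := [
  [[], [], [], [], [(-1, 0, 0, 0, 0, 1)]],
  [[], [], [], [], [], [], [], [], [], [], [(-1, 0, 0, 0, 0, 1)], [], [], [(-1, 0, 0, 0, 0, 1)]]]

def be : Mat := [
  [],
  [],
  [[], [(1, 1, 0, 0, 0, 0)]],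
  [],
  [[(-1, 0, 0, 0, 0, 2)], [(1, 1, 0, 0, 0, 0)]],
  [],
  [],
  [],
  [[], [(1, 0, 0, 0, 0, 2), (-1, 0, 0, 0, 1, 0), (1, 0, 1, 0, 0, 0)]],
  [],
  [[], [(1, 0, 1, 0, 0, 0)]],
  [[], [(-1, 0, 1, 0, 0, 0)]],
  [],
  [[], [(-1, 0, 0, 0, 0, 2), (-1, 0, 1, 0, 0, 0)]],
  [[], [(1, 1, 0, 0, 0, 0)]],
  [[], [(-1, 0, 1, 0, 0, 0)]],
  [[(-1, 0, 0, 0, 0, 1)]]]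

def tt : Mat := [
  [[(-1, 0, 0, 0, 1, 0), (1, 0, 1, 0, 0, 0)], [(1, 0, 0, 1, 0, 0)]]]

def na : Mat := [
  [[], [], [], [], [], [(-1, 0, 0, 0, 0, 1)]]]

def ka : Mat := [
  [[(1, 0, 0, 1, 0, 0)]],
  [[(1, 0, 0, 0, 1, 0), (-1, 0, 1, 0, 0, 0)]]]

def ng : Mat := [
  [],
  [],
  [[(1, 0, 0, 0, 0, 1)]],
  [],
  [],
  [],
  [],
  [],
  [],
  [],
  [],
  [],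
  [],
  [[(1, 0, 0, 0, 1, 0), (-1, 0, 1, 0, 0, 0)]],
  [],
  []]

def e5 : Mat := [
  [[], [], [], [], [], [(1, 0, 0, 0, 0, 0)]]]

def qq : Mat := [
  [[(1, 1, 0, 0, 0, 0)], [(1, 0, 1, 0, 0, 0)], [(1, 0, 0, 1, 0, 0)], [(1, 0, 0, 0, 1, 0)]]]

def nc : Mat := [
  [[], [], [], [], [], [], [], [], [], [], [(-1, 0, 0, 0, 0, 0)]],
  [[], [], [], [], [(1, 0, 0, 0, 0, 0)]],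
  [[], [], [], [], [], [], [], [], [], [], [(1, 0, 0, 0, 0, 0)], [], [], [(1, 0, 0, 0, 0, 0)]],
  [[], [], [], [], [], [], [], [], [], [], [], [], [], [], [], [], [(-1, 0, 0, 0, 0, 0)]]]

def s1 : Pol := [(1, 0, 3, 0, 0, 0), (-3, 0, 2, 0, 1, 0), (3, 0, 1, 0, 2, 0), (-1, 0, 0, 0, 3, 0)]
def s2 : Pol := [(1, 0, 0, 3, 0, 0)]
def s3 : Pol := [(1, 3, 0, 0, 0, 0), (1, 0, 0, 0, 0, 3)]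
def sx : Pol := [(1, 2, 0, 0, 0, 0)]

theorem k12 : chk 6 16 d1 d2 17 [] [] 0 [] [] 0 (fun _ => []) = true := by decide +kernel
theorem k23 : chk 17 5 d2 d3 16 [] [] 0 [] [] 0 (fun _ => []) = true := by decide +kernel
theorem ka0 : chk 6 6 d1 a0 17 [] [] 0 [] [] 0 (fun _ => s1) = true := by decide +kernel
theorem ka1 : chk 17 17 d2 a1 16 a0 d1 6 [] [] 0 (fun _ => s1) = true := by decide +kernel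
theorem ka2 : chk 16 16 d3 a2 5 a1 d2 17 [] [] 0 (fun _ => s1) = true := by decide +kernel
theorem ka3 : chk 5 5 a2 d3 16 [] [] 0 [] [] 0 (fun _ => s1) = true := by decide +kernel
theorem kb0 : chk 6 6 d1 b0 17 [] [] 0 [] [] 0 (fun _ => s2) = true := by decide +kernel
theorem kb1 : chk 17 17 d2 b1 16 b0 d1 6 [] [] 0 (fun _ => s2) = true := by decide +kernel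
theorem kb2 : chk 16 16 d3 b2 5 b1 d2 17 [] [] 0 (fun _ => s2) = true := by decide +kernel
theorem kc0 : chk 6 6 d1 c0 17 [] [] 0 [] [] 0 (fun _ => sx) = true := by decide +kernel
theorem kg1 : chk 17 17 d2 g1 16 g0 d1 6 be al 2 (fun _ => s3) = true := by decide +kernel
theorem kta : chk 1 17 tt al 2 na d1 6 [] [] 0 (fun _ => []) = true := by decide +kernel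
theorem kbk : chk 17 1 be ka 2 d2 ng 16 [] [] 0 (fun _ => []) = true := by decide +kernel
theorem kq : chk 1 17 e5 d1 6 qq nc 4 [] [] 0 (fun _ => []) = true := by decide +kernel

end Pool.Agent.MP_07e2b8_al.H18
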