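import Pool.Agent.MP_07e2b8_al.H18.Ring

/-!
Dimensions, depth and completeness of the ring, and the support of the module.
-/

set_option autoImplicit false

namespace Pool.Agent.MP_07e2b8_al.H18

open MvPowerSeries IsLocalRing RingTheory.Sequence

theorem X_max (i : Fin 3) : am (X i) ∈ maximalIdeal Rg :=
  max_eq ▸ (X_mem_K 0 i _ (am1 _)).2 rfl

theorem reg_quot {R : Type} [CommRing R] (I : Ideal R) (r : R) (h : ∀ a, r * a ∈ I → a ∈ I) :
    IsSMulRegular (R ⧸ (I • ⊤ : Submodule R R)) r := by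
  rw [isSMulRegular_quotient_iff_mem_of_smul_mem]
  simpa using h

theorem regSeq : IsRegular Rg [am (X 0), am (X 1), am (X 2)] := by
  refine IsRegular.of_isWeaklyRegular_of_mem_maximalIdeal _ (by
    simp only [List.mem_cons, List.not_mem_nil, or_false]
    rintro _ (rfl | rfl | rfl) <;> exact X_max _) ?_
  rw [isWeaklyRegular_iff]
  intro i hi
  refine reg_quot _ _ fun a => ?_
  have : i = 0 ∨ i = 1 ∨ i = 2 := by simp at hi; omega
  rcases this with rfl | rfl | rfl
  · simpa using r1 1 a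
  · simp only [List.take, Ideal.ofList_singleton, Ideal.mem_span_singleton', List.getElem_cons_succ,
      List.getElem_cons_zero]
    rintro ⟨b, hb⟩
    obtain ⟨c, hc⟩ := r2 1 a b (by rw [pow_one, pow_one, ← hb, mul_comm])
    exact ⟨c, by rw [hc, pow_one, mul_comm]⟩
  · simp only [List.take, Ideal.ofList_cons, Ideal.ofList_nil, sup_bot_eq, List.getElem_cons_succ,
      List.getElem_cons_zero, ← Ideal.span_insert, Ideal.mem_span_pair]
    rintro ⟨b, c, hb⟩
    obtain ⟨d, e, hc⟩ := r3 1 a b c (by rw [pow_one, pow_one, pow_one, ← hb]; ring)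
    exact ⟨d, e, by rw [hc]; ring⟩

/-- A set of primes each equal to the maximal ideal has dimension at most zero. -/
theorem dim_le_zero (S : Set (PrimeSpectrum Rg)) (h : ∀ Q ∈ S, K 0 ≤ Q.asIdeal) :
    Order.krullDim S ≤ 0 := by
  have : Subsingleton S := ⟨fun a b => Subtype.ext (PrimeSpectrum.ext (by
    have e : ∀ c : S, c.1.asIdeal = K 0 := fun c =>
      le_antisymm (max_eq ▸ le_maximalIdeal c.1.2.ne_top) (h _ c.2)
    rw [e a, e b]))⟩
  exact Order.krullDim_nonpos_of_subsingleton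

theorem dim_step (P Q : Ideal Rg) [P.IsPrime] (h : P < Q) :
    ringKrullDim (Rg ⧸ Q) + 1 ≤ ringKrullDim (Rg ⧸ P) := by
  obtain ⟨r, hQ, hP⟩ := SetLike.exists_of_lt h
  exact ringKrullDim_succ_le_of_surjective (Ideal.Quotient.factor h.le)
    (Ideal.Quotient.factor_surjective h.le) (r := Ideal.Quotient.mk P r)
    (mem_nonZeroDivisors_of_ne_zero (by simpa [Ideal.Quotient.eq_zero_iff_mem] using hP))
    (by simpa [Ideal.Quotient.eq_zero_iff_mem] using hQ)

theorem dim_K0 : 0 ≤ ringKrullDim (Rg ⧸ K 0) := ringKrullDim_nonneg_of_nontrivial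

theorem dim_le : ringKrullDim Rg ≤ 3 := by
  rw [← ringKrullDim_add_length_eq_ringKrullDim_of_isRegular _ regSeq, ringKrullDim_quotient]
  have := dim_le_zero (PrimeSpectrum.zeroLocus
    (Ideal.ofList [am (X 0), am (X 1), am (X 2)] : Set Rg)) fun Q hQ => K0_le _ fun i =>
      hQ (Ideal.subset_span (by fin_cases i <;> simp))
  grw [this]
  simp

theorem dim_min (P : Ideal Rg) (h : P ∈ minimalPrimes Rg) : ringKrullDim (Rg ⧸ P) = 3 := by
  refine le_antisymm ((ringKrullDim_quotient_le P).trans dim_le) ?_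
  have := h.1.1
  have h1 : P < K ![1, 1, 0] := by
    rcases min_cases P h with rfl | rfl
    · exact pT_lt
    · exact K_lt _ _ (by simp) 2 (by simp) rfl
  have h2 : K ![1, 1, 0] < K ![0, 1, 0] :=
    K_lt _ _ (fun i => by fin_cases i <;> simp) 0 (by simp) rfl
  have h3 : K ![0, 1, 0] < K 0 := K_lt _ _ (fun _ _ => rfl) 1 (by simp) rfl
  grw [← dim_step _ _ h1, ← dim_step _ _ h2, ← dim_step _ _ h3, ← dim_K0]
  norm_num

theorem dim_eq : ringKrullDim Rg = 3 :=
  le_antisymm dim_le (dim_min _ pT_min ▸ ringKrullDim_quotient_le pT)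

/-- the line -/
noncomputable abbrev qL : Ideal Rg := K ![0, 0, 1]

theorem ann_qL : Module.annihilator Rg (NN P0) ≤ qL :=
  ann_le qL (ex_K _) (add_mem ((X_mem_K _ 0 _ (am1 _)).2 rfl) (ev_K _))
    ((X_mem_K _ 1 _ (am1 _)).2 rfl) (ev_K _)

theorem qL_le (Q : Ideal Rg) [hQ : Q.IsPrime] (h : Module.annihilator Rg (NN P0) ≤ Q) :
    qL ≤ Q := by
  have h0 : am (X 0) ∈ Q := t1 ▸ hQ.mem_of_pow_mem 3 (h ann1)
  have h1 : am (X 1) ∈ Q := t2 ▸ hQ.mem_of_pow_mem 3 (h ann2)
  refine K_le _ _ (hQ.mem_of_pow_mem 2 (h annx)) (ev_mem Q h0 h1) fun i hi => ?_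
  fin_cases i
  · exact h0
  · exact h1
  · simp at hi

theorem w_not_qL : P0.w ∉ qL := by simp [w_mem_K]

instance : Nontrivial (NN P0) := by
  by_contra h
  have := not_nontrivial_iff_subsingleton.1 h
  exact w_not_qL (ann_qL (Module.mem_annihilator.2 fun _ => Subsingleton.elim _ _))

theorem min_ann (Q : Ideal Rg) (h : Q ∈ (Module.annihilator Rg (NN P0)).minimalPrimes) :
    Q = qL :=
  have := h.1.1
  le_antisymm (h.2 ⟨inferInstance, ann_qL⟩ (qL_le Q h.1.2)) (qL_le Q h.1.2)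

theorem K0_le' (Q : Ideal Rg) [hQ : Q.IsPrime] (h : Module.annihilator Rg (NN P0) ≤ Q)
    (hw : P0.w ∈ Q) : K 0 ≤ Q := by
  have h1 := qL_le Q h
  refine K0_le Q fun i => ?_
  fin_cases i
  · exact h1 ((X_mem_K _ 0 _ (am1 _)).2 rfl)
  · exact h1 ((X_mem_K _ 1 _ (am1 _)).2 rfl)
  · exact t3 ▸ add_mem hw (h1 (ex_K _))

theorem dim_NN : Module.supportDim Rg (NN P0) = 1 := by
  apply le_antisymm
  · have hw : P0.w ∈ maximalIdeal Rg := max_eq ▸ (w_mem_K 0).2 rfl
    have := dim_le_zero (Module.support Rg (QuotSMulTop P0.w (NN P0))) fun Q hQ => by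
      rw [Module.support_quotSMulTop] at hQ
      exact K0_le' _ (Module.annihilator_le_of_mem_support hQ.1) (hQ.2 rfl)
    grw [Module.supportDim_le_supportDim_quotSMulTop_succ hw, Module.supportDim, this]
    simp
  · have h3 : qL < K 0 := K_lt _ _ (fun _ _ => rfl) 2 (by simp) rfl
    rw [Module.supportDim_eq_ringKrullDim_quotient_annihilator]
    grw [← ringKrullDim_le_of_surjective (Ideal.Quotient.factor ann_qL)
      (Ideal.Quotient.factor_surjective ann_qL), ← dim_step _ _ h3, ← dim_K0]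
    simp

theorem finLen : IsFiniteLength Rg (NN P0 ⧸ (pT • ⊤ : Submodule Rg (NN P0))) := by
  set M := NN P0 ⧸ (pT • ⊤ : Submodule Rg (NN P0))
  rw [isFiniteLength_iff_isNoetherian_isArtinian]
  refine ⟨inferInstance, ?_⟩
  have : IsArtinianRing (Rg ⧸ Module.annihilator Rg M) := by
    rw [isArtinianRing_iff_krullDimLE_zero, Ring.krullDimLE_iff,
      ← Module.supportDim_eq_ringKrullDim_quotient_annihilator]
    refine dim_le_zero _ fun Q hQ => ?_
    rw [Module.support_quotient] at hQ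
    exact K0_le' _ (Module.annihilator_le_of_mem_support hQ.1)
      (hQ.2 (Ideal.mem_span_singleton_self _))
  let := Module.quotientAnnihilator (R := Rg) (M := M)
  have : IsScalarTower Rg (Rg ⧸ Module.annihilator Rg M) M :=
    Module.IsTorsionBySet.isScalarTower (Module.isTorsionBySet_annihilator Rg M)
  have : Module.Finite (Rg ⧸ Module.annihilator Rg M) M :=
    Module.Finite.of_restrictScalars_finite Rg _ _
  exact isArtinian_of_surjective_algebraMap (R := Rg ⧸ Module.annihilator Rg M)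
    Ideal.Quotient.mk_surjective

theorem mem_map_iff (I : Ideal L) (r : Rg) :
    r ∈ I.map am ↔ r.1 ∈ I ∧ r.2.1 ∈ I ∧ r.2.2 ∈ I := by
  constructor
  · intro h
    induction h using Submodule.span_induction with
    | mem x hx => obtain ⟨a, ha, rfl⟩ := hx; simpa using ha
    | zero => simp
    | add x y _ _ hx hy => exact ⟨add_mem hx.1 hy.1, add_mem hx.2.1 hy.2.1, add_mem hx.2.2 hy.2.2⟩
    | smul a x _ hx =>
      have m := fun (c d : L) (h : d ∈ I) => I.mul_mem_left c h
      exact ⟨m _ _ hx.1,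
        add_mem (add_mem (add_mem (m _ _ hx.2.1) (m _ _ hx.1)) (m _ _ (m _ _ hx.2.1)))
          (m _ _ (m _ _ hx.2.2)),
        sub_mem (add_mem (add_mem (m _ _ hx.2.2) (m _ _ hx.1))
          (m _ _ (add_mem (m _ _ hx.2.2) (m _ _ hx.2.1)))) (m _ _ (m _ _ hx.2.2))⟩
  · rintro ⟨h1, h2, h3⟩
    rw [expand r]
    exact add_mem (add_mem (Ideal.mem_map_of_mem _ h1)
      (Ideal.mul_mem_right _ _ (Ideal.mem_map_of_mem _ h2)))
      (Ideal.mul_mem_right _ _ (Ideal.mem_map_of_mem _ h3))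

/-- the ideal of the variables -/
noncomputable abbrev nX : Ideal L := Ideal.span (Set.range X)

theorem sq_le : maximalIdeal Rg ^ 2 ≤ nX.map am := by
  have hX : ∀ i, (X i : L) ∈ nX := fun i => Ideal.subset_span ⟨i, rfl⟩
  rw [sq, Ideal.mul_le, max_eq]
  intro r hr s hs
  have h1 : r.1 ∈ nX := mem_of_resc 0 _ (fun i _ => hX i) _ hr
  have h2 : s.1 ∈ nX := mem_of_resc 0 _ (fun i _ => hX i) _ hs
  have m := fun (c d : L) (h : d ∈ nX) => nX.mul_mem_left c h
  have k := fun (c d : L) (h : d ∈ nX) => nX.mul_mem_right c h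
  exact (mem_map_iff _ _).2 ⟨m _ _ h2,
    add_mem (add_mem (add_mem (k _ _ h1) (m _ _ h2)) (k _ _ (hX 2))) (k _ _ (hX 1)),
    sub_mem (add_mem (add_mem (k _ _ h1) (m _ _ h2)) (k _ _ (hX 2))) (k _ _ (hX 0))⟩

theorem nX_le : nX.map am ≤ maximalIdeal Rg := by
  rw [Ideal.map_le_iff_le_comap, Ideal.span_le]
  rintro _ ⟨i, rfl⟩
  exact X_max i

theorem complete : IsAdicComplete (maximalIdeal Rg) Rg where
  prec' f hf := by
    simp only [SModEq.sub_mem, smul_eq_mul, Ideal.mul_top] at hf ⊢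
    have hc : ∀ {m n}, m ≤ n → f (2 * m) - f (2 * n) ∈ (nX ^ m).map am := fun {m n} h => by
      rw [Ideal.map_pow]
      exact Ideal.pow_right_mono sq_le m (pow_mul (maximalIdeal Rg) 2 m ▸ hf (by omega))
    have hp := (inferInstance : IsPrecomplete nX L).prec'
    simp only [SModEq.sub_mem, smul_eq_mul, Ideal.mul_top] at hp
    obtain ⟨a, ha⟩ := hp (fun n => (f (2 * n)).1) fun h => ((mem_map_iff _ _).1 (hc h)).1
    obtain ⟨b, hb⟩ := hp (fun n => (f (2 * n)).2.1) fun h => ((mem_map_iff _ _).1 (hc h)).2.1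
    obtain ⟨c, hc⟩ := hp (fun n => (f (2 * n)).2.2) fun h => ((mem_map_iff _ _).1 (hc h)).2.2
    let l : Rg := ((a, b, c) : L × L × L)
    refine ⟨l, fun n => ?_⟩
    have : f (2 * n) - l ∈ (nX ^ n).map am := (mem_map_iff _ _).2 ⟨ha n, hb n, hc n⟩
    rw [Ideal.map_pow] at this
    simpa using add_mem (hf (show n ≤ 2 * n by omega)) (Ideal.pow_right_mono nX_le n this)

end Pool.Agent.MP_07e2b8_al.H18
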