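import Pool.Agent.MP_07e2b8_al.H18.Ser
import Pool.Agent.MP_07e2b8_al.H18.Acyc

/-!
The ring `k[[x,y,u,v,w]] / (x w, v w, x u - y v)`, as the free module with basis `1, x, v` over
the power series ring in `y - v, u, w + x`.
-/

set_option autoImplicit false

namespace Pool.Agent.MP_07e2b8_al.H18

open MvPowerSeries IsLocalRing

/-- `(a, b, c)` stands for `a + b x + c v`. -/
def Rg : Type := L × L × L

noncomputable instance : AddCommGroup Rg := inferInstanceAs (AddCommGroup (L × L × L))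
noncomputable instance : Module L Rg := inferInstanceAs (Module L (L × L × L))
instance : Module.Finite L Rg := inferInstanceAs (Module.Finite L (L × L × L))
instance : Module.Free L Rg := inferInstanceAs (Module.Free L (L × L × L))

noncomputable instance : One Rg := ⟨((1, 0, 0) : L × L × L)⟩
noncomputable instance : Mul Rg := ⟨fun r s => ((r.1 * s.1,
  r.1 * s.2.1 + r.2.1 * s.1 + X 2 * (r.2.1 * s.2.1) + X 1 * (r.2.2 * s.2.2),
  r.1 * s.2.2 + r.2.2 * s.1 + X 2 * (r.2.1 * s.2.2 + r.2.2 * s.2.1) - X 0 * (r.2.2 * s.2.2)) :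
    L × L × L)⟩

theorem Rg.ext {r s : Rg} (h1 : r.1 = s.1) (h2 : r.2.1 = s.2.1) (h3 : r.2.2 = s.2.2) : r = s :=
  Prod.ext h1 (Prod.ext h2 h3)

@[simp] theorem mul1 (r s : Rg) : (r * s).1 = r.1 * s.1 := rfl
@[simp] theorem mul2 (r s : Rg) : (r * s).2.1 =
  r.1 * s.2.1 + r.2.1 * s.1 + X 2 * (r.2.1 * s.2.1) + X 1 * (r.2.2 * s.2.2) := rfl
@[simp] theorem mul3 (r s : Rg) : (r * s).2.2 =
  r.1 * s.2.2 + r.2.2 * s.1 + X 2 * (r.2.1 * s.2.2 + r.2.2 * s.2.1) - X 0 * (r.2.2 * s.2.2) := rfl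
@[simp] theorem add1 (r s : Rg) : (r + s).1 = r.1 + s.1 := rfl
@[simp] theorem add2 (r s : Rg) : (r + s).2.1 = r.2.1 + s.2.1 := rfl
@[simp] theorem add3 (r s : Rg) : (r + s).2.2 = r.2.2 + s.2.2 := rfl
@[simp] theorem sub1 (r s : Rg) : (r - s).1 = r.1 - s.1 := rfl
@[simp] theorem sub2 (r s : Rg) : (r - s).2.1 = r.2.1 - s.2.1 := rfl
@[simp] theorem sub3 (r s : Rg) : (r - s).2.2 = r.2.2 - s.2.2 := rfl
@[simp] theorem neg1 (r : Rg) : (-r).1 = -r.1 := rfl
@[simp] theorem neg2 (r : Rg) : (-r).2.1 = -r.2.1 := rfl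
@[simp] theorem neg3 (r : Rg) : (-r).2.2 = -r.2.2 := rfl
@[simp] theorem zero1 : (0 : Rg).1 = 0 := rfl
@[simp] theorem zero2 : (0 : Rg).2.1 = 0 := rfl
@[simp] theorem zero3 : (0 : Rg).2.2 = 0 := rfl
@[simp] theorem one1 : (1 : Rg).1 = 1 := rfl
@[simp] theorem one2 : (1 : Rg).2.1 = 0 := rfl
@[simp] theorem one3 : (1 : Rg).2.2 = 0 := rfl
@[simp] theorem smul1 (a : L) (s : Rg) : (a • s).1 = a * s.1 := rfl
@[simp] theorem smul2 (a : L) (s : Rg) : (a • s).2.1 = a * s.2.1 := rfl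
@[simp] theorem smul3 (a : L) (s : Rg) : (a • s).2.2 = a * s.2.2 := rfl

noncomputable instance : CommRing Rg :=
  { (inferInstance : AddCommGroup Rg), (inferInstance : One Rg), (inferInstance : Mul Rg) with
    mul_assoc := fun r s t => by apply Rg.ext <;> simp <;> ring
    mul_comm := fun r s => by apply Rg.ext <;> simp <;> ring
    one_mul := fun r => by apply Rg.ext <;> simp
    mul_one := fun r => by apply Rg.ext <;> simp
    zero_mul := fun r => by apply Rg.ext <;> simp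
    mul_zero := fun r => by apply Rg.ext <;> simp
    left_distrib := fun r s t => by apply Rg.ext <;> simp <;> ring
    right_distrib := fun r s t => by apply Rg.ext <;> simp <;> ring }

noncomputable instance : Algebra L Rg := Algebra.ofModule
  (fun a r s => by apply Rg.ext <;> simp <;> ring)
  (fun a r s => by apply Rg.ext <;> simp <;> ring)

instance : IsNoetherianRing Rg := Algebra.FiniteType.isNoetherianRing L Rg

/-- the structure map -/
noncomputable abbrev am : L →+* Rg := algebraMap L Rg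

theorem am_mul (a : L) (r : Rg) : am a * r = a • r := (Algebra.smul_def a r).symm
@[simp] theorem am1 (a : L) : (am a).1 = a := by rw [← mul_one (am a), am_mul]; simp
@[simp] theorem am2 (a : L) : (am a).2.1 = 0 := by rw [← mul_one (am a), am_mul]; simp
@[simp] theorem am3 (a : L) : (am a).2.2 = 0 := by rw [← mul_one (am a), am_mul]; simp

noncomputable def ex : Rg := ((0, 1, 0) : L × L × L)
noncomputable def ev' : Rg := ((0, 0, 1) : L × L × L)
@[simp] theorem ex1' : ex.1 = 0 := rfl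
@[simp] theorem ex2' : ex.2.1 = 1 := rfl
@[simp] theorem ex3' : ex.2.2 = 0 := rfl
@[simp] theorem ev1' : ev'.1 = 0 := rfl
@[simp] theorem ev2' : ev'.2.1 = 0 := rfl
@[simp] theorem ev3' : ev'.2.2 = 1 := rfl

theorem expand (r : Rg) : r = am r.1 + am r.2.1 * ex + am r.2.2 * ev' := by
  apply Rg.ext <;> simp

/-- The five coordinates. -/
noncomputable def P0 : Pt Rg where
  x := ex
  y := am (X 0) + ev'
  u := am (X 1)
  v := ev'
  w := am (X 2) - ex
  xw := by apply Rg.ext <;> simp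
  vw := by apply Rg.ext <;> simp
  xu := by apply Rg.ext <;> simp

theorem t1 : P0.y - P0.v = am (X 0) := by simp [P0]
theorem t2 : P0.u = am (X 1) := rfl
theorem t3 : P0.w + P0.x = am (X 2) := by simp [P0]

theorem r1 (n : ℕ) (r : Rg) (h : am (X 0) ^ n * r = 0) : r = 0 := by
  rw [← map_pow, am_mul] at h
  exact (smul_eq_zero.1 h).resolve_left (pow_ne_zero _ (X_ne 0))

theorem r2 (n : ℕ) (a b : Rg) (h : am (X 1) ^ n * a = am (X 0) ^ n * b) :
    ∃ c, a = am (X 0) ^ n * c := by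
  simp only [← map_pow, am_mul] at h ⊢
  obtain ⟨c1, h1⟩ := l2 n _ _ (congrArg (fun r : Rg => r.1) h)
  obtain ⟨c2, h2⟩ := l2 n _ _ (congrArg (fun r : Rg => r.2.1) h)
  obtain ⟨c3, h3⟩ := l2 n _ _ (congrArg (fun r : Rg => r.2.2) h)
  exact ⟨((c1, c2, c3) : L × L × L), Rg.ext h1 h2 h3⟩

theorem r3 (n : ℕ) (a b c : Rg) (h : am (X 2) ^ n * a = am (X 0) ^ n * b + am (X 1) ^ n * c) :
    ∃ d e, a = am (X 0) ^ n * d + am (X 1) ^ n * e := by
  simp only [← map_pow, am_mul] at h ⊢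
  obtain ⟨c1, d1, h1⟩ := l3 n _ _ _ (congrArg (fun r : Rg => r.1) h)
  obtain ⟨c2, d2, h2⟩ := l3 n _ _ _ (congrArg (fun r : Rg => r.2.1) h)
  obtain ⟨c3, d3, h3⟩ := l3 n _ _ _ (congrArg (fun r : Rg => r.2.2) h)
  exact ⟨((c1, c2, c3) : L × L × L), ((d1, d2, d3) : L × L × L), Rg.ext h1 h2 h3⟩

theorem reg0 : Reg P0 where
  r1 := by rw [t1]; exact r1 3
  r2 := by rw [t1, t2]; exact r2
  r3 := by rw [t1, t2, t3]; exact r3 3

/-- projection to the smooth component -/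
noncomputable def pS : Rg →+* L where
  toFun r := r.1
  map_one' := rfl
  map_mul' _ _ := rfl
  map_zero' := rfl
  map_add' _ _ := rfl

/-- the primes on the smooth component cut out by coordinates -/
noncomputable def K (a : Fin 3 → ℚ) : Ideal Rg := RingHom.ker ((rescale a).comp pS)

instance (a : Fin 3 → ℚ) : (K a).IsPrime := RingHom.ker_isPrime _

theorem mem_K (a : Fin 3 → ℚ) (r : Rg) : r ∈ K a ↔ rescale a r.1 = 0 := Iff.rfl

theorem X_mem_K (a : Fin 3 → ℚ) (i : Fin 3) (r : Rg) (h : r.1 = X i) : r ∈ K a ↔ a i = 0 := by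
  rw [mem_K, h, resc_X, mul_eq_zero, or_iff_left (X_ne i)]
  exact map_eq_zero_iff _ C_injective

theorem K_le (a : Fin 3 → ℚ) (I : Ideal Rg) (hx : ex ∈ I) (hv : ev' ∈ I)
    (h : ∀ i, a i = 0 → am (X i) ∈ I) : K a ≤ I := by
  intro r hr
  rw [expand r]
  exact add_mem (add_mem (mem_of_resc a (I.comap am) h _ hr) (I.mul_mem_left _ hx))
    (I.mul_mem_left _ hv)

theorem ex_K (a : Fin 3 → ℚ) : ex ∈ K a := by simp [mem_K]
theorem ev_K (a : Fin 3 → ℚ) : ev' ∈ K a := by simp [mem_K]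

theorem K_mono (a b : Fin 3 → ℚ) (h : ∀ i, a i = 0 → b i = 0) : K a ≤ K b :=
  K_le a _ (ex_K b) (ev_K b) fun i hi => (X_mem_K b i _ (am1 _)).2 (h i hi)

theorem K_lt (a b : Fin 3 → ℚ) (h : ∀ i, a i = 0 → b i = 0) (j : Fin 3) (ha : a j ≠ 0)
    (hb : b j = 0) : K a < K b :=
  lt_of_le_of_ne (K_mono a b h) fun e =>
    ha ((X_mem_K a j _ (am1 _)).1 (e ▸ (X_mem_K b j _ (am1 _)).2 hb))

theorem sq_x : ex ^ 2 = am (X 2) * ex := by rw [sq]; apply Rg.ext <;> simp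
theorem mul_xv : ex * ev' = am (X 2) * ev' := by apply Rg.ext <;> simp
theorem sq_v : ev' ^ 2 = am (X 1) * ex - am (X 0) * ev' := by rw [sq]; apply Rg.ext <;> simp

theorem ev_mem (Q : Ideal Rg) [hQ : Q.IsPrime] (h0 : am (X 0) ∈ Q) (h1 : am (X 1) ∈ Q) :
    ev' ∈ Q :=
  hQ.mem_of_pow_mem 2 (sq_v ▸ sub_mem (Q.mul_mem_right _ h1) (Q.mul_mem_right _ h0))

theorem K0_le (Q : Ideal Rg) [hQ : Q.IsPrime] (h : ∀ i, am (X i) ∈ Q) : K 0 ≤ Q :=
  K_le 0 Q (hQ.mem_of_pow_mem 2 (sq_x ▸ Q.mul_mem_right _ (h 2))) (ev_mem Q (h 0) (h 1))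
    fun i _ => h i

theorem eq_K0 (M : Ideal Rg) (hM : M.IsMaximal) : M = K 0 := by
  have h1 : (M.comap am).IsMaximal := Ideal.isMaximal_comap_of_isIntegral_of_isMaximal M
  have h2 : K 0 ≤ M := K0_le M fun i => by
    have : (X i : L) ∈ maximalIdeal L := by
      simp [isUnit_iff_constantCoeff]
    rwa [← eq_maximalIdeal h1] at this
  obtain ⟨M', hM', hle⟩ := Ideal.exists_le_maximal (K 0) Ideal.IsPrime.ne_top'
  refine le_antisymm (fun r hr => ?_) h2
  by_contra hn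
  have hu : IsUnit r.1 := by
    rw [isUnit_iff_constantCoeff, isUnit_iff_ne_zero]
    intro h0
    exact hn (by rw [mem_K, rescale_zero_apply, h0, map_zero])
  have : am r.1 ∈ M := by
    have e : am r.1 = r - (am r.2.1 * ex + am r.2.2 * ev') := by
      apply Rg.ext <;> simp
    rw [e]
    exact sub_mem hr (add_mem (M.mul_mem_left _ (h2 (ex_K 0))) (M.mul_mem_left _ (h2 (ev_K 0))))
  exact hM.ne_top (M.eq_top_of_isUnit_mem this (hu.map am))

instance : IsLocalRing Rg := by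
  obtain ⟨M, hM, -⟩ := Ideal.exists_le_maximal (K 0) Ideal.IsPrime.ne_top'
  exact IsLocalRing.of_unique_max_ideal ⟨M, hM, fun M' h => (eq_K0 M' h).trans (eq_K0 M hM).symm⟩

theorem max_eq : maximalIdeal Rg = K 0 := eq_K0 _ inferInstance

/-- the singular component -/
noncomputable def pT : Ideal Rg := Ideal.span {P0.w}

theorem mem_pT (r : Rg) : r ∈ pT ↔ r.1 + r.2.1 * X 2 = 0 ∧ r.2.2 = 0 := by
  rw [pT, Ideal.mem_span_singleton']
  constructor
  · rintro ⟨a, rfl⟩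
    constructor <;> simp [P0] <;> ring
  · rintro ⟨h1, h2⟩
    refine ⟨am (-r.2.1), ?_⟩
    apply Rg.ext <;> simp [P0, h2]
    linear_combination -h1

instance : pT.IsPrime where
  ne_top' := by rw [Ideal.ne_top_iff_one, mem_pT]; simp
  mem_or_mem' := by
    intro r s h
    simp only [mem_pT, mul1, mul2, mul3] at h ⊢
    have := mul_eq_zero.1 (show ((r.1 + r.2.1 * X 2) ^ 2 - X 0 * (r.1 + r.2.1 * X 2) * r.2.2 -
        X 1 * X 2 * r.2.2 ^ 2) * ((s.1 + s.2.1 * X 2) ^ 2 - X 0 * (s.1 + s.2.1 * X 2) * s.2.2 -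
        X 1 * X 2 * s.2.2 ^ 2) = 0 by
      generalize hA : r.1 * s.1 + (r.1 * s.2.1 + r.2.1 * s.1 + X 2 * (r.2.1 * s.2.1) +
        X 1 * (r.2.2 * s.2.2)) * X 2 = A at h
      generalize hB : r.1 * s.2.2 + r.2.2 * s.1 + X 2 * (r.2.1 * s.2.2 + r.2.2 * s.2.1) -
        X 0 * (r.2.2 * s.2.2) = B at h
      have e : A ^ 2 - X 0 * A * B - X 1 * X 2 * B ^ 2 = 0 := by rw [h.1, h.2]; ring
      rw [← e, ← hA, ← hB]; ring)
    exact this.imp (aniso _ _) (aniso _ _)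

theorem mem_K1 (r : Rg) : r ∈ K 1 ↔ r.1 = 0 := by rw [mem_K, rescale_one]; rfl

theorem inf_eq : pT ⊓ K 1 = ⊥ := by
  refine eq_bot_iff.2 fun r hr => ?_
  obtain ⟨⟨h1, h2⟩, h3⟩ := (mem_pT r).1 hr.1, (mem_K1 r).1 hr.2
  rw [h3, zero_add] at h1
  exact Rg.ext h3 ((mul_eq_zero.1 h1).resolve_right (X_ne 2)) h2

theorem x_not_pT : ex ∉ pT := by simp [mem_pT, X_ne]

theorem w_mem_K (a : Fin 3 → ℚ) : P0.w ∈ K a ↔ a 2 = 0 := X_mem_K a 2 _ (by simp [P0])

theorem le_or_le (Q : Ideal Rg) (hQ : Q.IsPrime) : pT ≤ Q ∨ K 1 ≤ Q :=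
  hQ.inf_le.1 (inf_eq ▸ bot_le)

theorem pT_min : pT ∈ minimalPrimes Rg := by
  refine ⟨⟨inferInstance, bot_le⟩, ?_⟩
  rintro Q ⟨hQ, -⟩ hle
  exact (le_or_le Q hQ).resolve_right fun h => x_not_pT (hle (h (ex_K 1)))

theorem min_cases (Q : Ideal Rg) (h : Q ∈ minimalPrimes Rg) : Q = pT ∨ Q = K 1 :=
  (le_or_le Q h.1.1).imp (fun h' => le_antisymm (h.2 ⟨inferInstance, bot_le⟩ h') h')
    fun h' => le_antisymm (h.2 ⟨inferInstance, bot_le⟩ h') h'

instance : IsReduced Rg where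
  eq_zero r hr := by
    obtain ⟨n, hn⟩ := hr
    have : r ∈ pT ⊓ K 1 := ⟨Ideal.IsPrime.mem_of_pow_mem inferInstance n (hn ▸ zero_mem _),
      Ideal.IsPrime.mem_of_pow_mem inferInstance n (hn ▸ zero_mem _)⟩
    rwa [inf_eq] at this

theorem pT_lt : pT < K ![1, 1, 0] :=
  lt_of_le_of_ne ((Ideal.span_singleton_le_iff_mem _).2 ((w_mem_K _).2 rfl))
    fun h => x_not_pT (h ▸ ex_K _)

end Pool.Agent.MP_07e2b8_al.H18
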