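import Mathlib

/-!
Facts on the power series ring in three variables.
-/

set_option autoImplicit false

namespace Pool.Agent.MP_07e2b8_al.H18

open MvPowerSeries

/-- power series in three variables -/
abbrev L : Type := MvPowerSeries (Fin 3) ℚ

instance : IsDomain L := NoZeroDivisors.to_isDomain _

theorem X_ne (i : Fin 3) : (X i : L) ≠ 0 := by
  intro h
  have := congrArg (coeff (Finsupp.single i 1)) h
  simp [coeff_X] at this

theorem split (i : Fin 3) (a : ℕ) (f : L) : ∃ d g : L, f = X i ^ a * d + g ∧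
    ∀ m, coeff m g = if a ≤ m i then 0 else coeff m f := by
  let g : L := fun m => if a ≤ m i then 0 else coeff m f
  have hg : ∀ m, coeff m g = if a ≤ m i then 0 else coeff m f := fun m => rfl
  obtain ⟨d, hd⟩ : (X i : L) ^ a ∣ f - g := by
    rw [X_pow_dvd_iff]
    intro m hm
    rw [map_sub, hg, if_neg (by omega), sub_self]
  exact ⟨d, g, by rw [← hd]; ring, hg⟩

theorem coeff_low (i : Fin 3) (a : ℕ) (f : L) (m : Fin 3 →₀ ℕ) (h : m i < a) :
    coeff m (X i ^ a * f) = 0 := X_pow_dvd_iff.1 (dvd_mul_right _ _) m h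

theorem coeff_shift (i : Fin 3) (a : ℕ) (f : L) (m : Fin 3 →₀ ℕ) :
    coeff (Finsupp.single i a + m) (X i ^ a * f) = coeff m f := by
  rw [X_pow_eq, coeff_add_monomial_mul, one_mul]

theorem l2 (n : ℕ) (a b : L) (h : X 1 ^ n * a = X 0 ^ n * b) : ∃ c, a = X 0 ^ n * c := by
  refine X_pow_dvd_iff.2 fun m hm => ?_
  rw [← coeff_shift 1 n, h]
  exact coeff_low _ _ _ _ (by simpa using hm)

theorem l3 (n : ℕ) (a b c : L) (h : X 2 ^ n * a = X 0 ^ n * b + X 1 ^ n * c) :
    ∃ d e, a = X 0 ^ n * d + X 1 ^ n * e := by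
  obtain ⟨d, g, h1, h2⟩ := split 0 n a
  obtain ⟨e, rfl⟩ : (X 1 : L) ^ n ∣ g := by
    refine X_pow_dvd_iff.2 fun m hm => ?_
    rw [h2]
    split_ifs with h0
    · rfl
    · rw [← coeff_shift 2 n, h, map_add, coeff_low _ _ _ _ (by simpa using h0),
        coeff_low _ _ _ _ (by simpa using hm), add_zero]
  exact ⟨d, e, h1⟩

theorem resc_X (a : Fin 3 → ℚ) (i : Fin 3) : rescale a (X i : L) = C (a i) * X i := by
  ext m
  rw [coeff_rescale, coeff_C_mul, coeff_X]
  split_ifs with h
  · subst h; simp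
  · simp

/-- A series killed by setting the variables outside `s` to zero lies in the ideal they span. -/
theorem mem_of_resc (a : Fin 3 → ℚ) (I : Ideal L) (hI : ∀ i, a i = 0 → X i ∈ I) (f : L)
    (hf : rescale a f = 0) : f ∈ I := by
  have step : ∀ (i : Fin 3) (f : L), ∃ g : L, f - g ∈ I ∧
      ∀ m, coeff m g = if a i = 0 ∧ 1 ≤ m i then 0 else coeff m f := by
    intro i f
    by_cases h : a i = 0
    · obtain ⟨d, g, h1, h2⟩ := split i 1 f
      refine ⟨g, ?_, fun m => by simp [h2, h]⟩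
      rw [h1, add_sub_cancel_right, pow_one]
      exact I.mul_mem_right _ (hI i h)
    · exact ⟨f, by simp, fun m => by simp [h]⟩
  obtain ⟨g0, a0, b0⟩ := step 0 f
  obtain ⟨g1, a1, b1⟩ := step 1 g0
  obtain ⟨g2, a2, b2⟩ := step 2 g1
  have : g2 = 0 := by
    ext m
    rw [b2, b1, b0]
    split_ifs with h2 h1 h0
    · rfl
    · rfl
    · rfl
    have := congrArg (coeff m) hf
    rw [coeff_rescale, map_zero] at this
    refine (mul_eq_zero.1 this).resolve_left ?_
    refine Finsupp.prod_ne_zero_iff.2 fun i hi => pow_ne_zero _ fun h => ?_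
    have hm : 1 ≤ m i := Nat.one_le_iff_ne_zero.2 (Finsupp.mem_support_iff.1 hi)
    fin_cases i
    · exact h0 ⟨h, hm⟩
    · exact h1 ⟨h, hm⟩
    · exact h2 ⟨h, hm⟩
  have e : f = (f - g0) + (g0 - g1) + (g1 - g2) := by rw [this]; ring
  rw [e]
  exact add_mem (add_mem a0 a1) a2

/-- The norm form of the quadric cone is anisotropic. -/
theorem aniso (A B : L) (h : A ^ 2 - X 0 * A * B - X 1 * X 2 * B ^ 2 = 0) : A = 0 ∧ B = 0 := by
  let w : Fin 3 → ℕ := ![1, 1, 0]
  have hX : ∀ i, (X i : L).weightedOrder w = w i := fun i => by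
    rw [X, weightedOrder_monomial_of_ne_zero w one_ne_zero]
    simp [Finsupp.weight_apply]
  by_cases hB : B = 0
  · subst hB
    simpa using h
  exfalso
  by_cases hA : A = 0
  · subst hA
    simp [X_ne, hB] at h
  obtain ⟨a, ha⟩ := ENat.ne_top_iff_exists.1 ((weightedOrder_eq_top_iff w).not.2 hA)
  obtain ⟨b, hb⟩ := ENat.ne_top_iff_exists.1 ((weightedOrder_eq_top_iff w).not.2 hB)
  have o1 : (A ^ 2).weightedOrder w = (a + a : ℕ) := by
    rw [sq, weightedOrder_mul, ← ha]; rfl
  have o2 : (X 0 * A * B : L).weightedOrder w = ((1 + a + b : ℕ) : ℕ∞) := by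
    rw [weightedOrder_mul, weightedOrder_mul, hX, ← ha, ← hb]; rfl
  have o3 : (X 1 * X 2 * B ^ 2 : L).weightedOrder w = ((1 + 0 + (b + b) : ℕ) : ℕ∞) := by
    rw [sq, weightedOrder_mul, weightedOrder_mul, weightedOrder_mul, hX, hX, ← hb]; rfl
  rcases le_or_gt a b with hab | hab
  · have e : A ^ 2 = X 0 * A * B + X 1 * X 2 * B ^ 2 := by linear_combination h
    have := min_weightedOrder_le_add (w := w) (f := X 0 * A * B) (g := X 1 * X 2 * B ^ 2)
    rw [← e, o1, o2, o3, min_le_iff, Nat.cast_le, Nat.cast_le] at this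
    omega
  · have e : X 1 * X 2 * B ^ 2 = A ^ 2 + -(X 0 * A * B) := by linear_combination -h
    have := min_weightedOrder_le_add (w := w) (f := A ^ 2) (g := -(X 0 * A * B))
    rw [← e, weightedOrder_neg, o1, o2, o3, min_le_iff, Nat.cast_le, Nat.cast_le] at this
    omega

end Pool.Agent.MP_07e2b8_al.H18
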